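import Pool.Agent.LibCryst.Defs

set_option autoImplicit false

open Finset

namespace Pool.Agent.LibCryst

variable {n : ℕ}

lemma dne (f : Diag n) (x : Fin (2 * n)) : f.1 x ≠ x := (f.2 x).1

lemma dinv (f : Diag n) (x : Fin (2 * n)) : f.1 (f.1 x) = x := (f.2 x).2

lemma dinj (f : Diag n) {x y : Fin (2 * n)} (h : f.1 x = f.1 y) : x = y := by
  rw [← dinv f x, h, dinv]

lemma swapD_apply (f : Diag n) (i j x : Fin (2 * n)) :
    (swapD f i j).1 x = Equiv.swap i j (f.1 (Equiv.swap i j x)) := rfl

lemma swapD_swapD (f : Diag n) (i j : Fin (2 * n)) : swapD (swapD f i j) i j = f := by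
  apply Subtype.ext
  funext x
  rw [swapD_apply, swapD_apply, Equiv.swap_apply_self, Equiv.swap_apply_self]

lemma swapD_of_ne (f : Diag n) (i j x : Fin (2 * n)) (h1 : x ≠ i) (h2 : x ≠ j) (h3 : f.1 x ≠ i)
    (h4 : f.1 x ≠ j) : (swapD f i j).1 x = f.1 x := by
  rw [swapD_apply, Equiv.swap_apply_of_ne_of_ne h1 h2, Equiv.swap_apply_of_ne_of_ne h3 h4]

lemma shortV_partner (f : Diag n) {x : Fin (2 * n)} (h : ShortV f x) : ShortV f (f.1 x) := by
  unfold ShortV at h ⊢
  rw [dinv]
  rcases h with h | h
  · exact Or.inr h
  · exact Or.inl h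

lemma shortV_swapD (f : Diag n) {i j x : Fin (2 * n)} (hi : ¬ ShortV f i) (hj : ¬ ShortV f j)
    (h : ShortV f x) : ShortV (swapD f i j) x ∧ (swapD f i j).1 x = f.1 x := by
  have h' := shortV_partner f h
  have e : (swapD f i j).1 x = f.1 x := by
    apply swapD_of_ne
    · rintro rfl; exact hi h
    · rintro rfl; exact hj h
    · intro e; rw [e] at h'; exact hi h'
    · intro e; rw [e] at h'; exact hj h'
  refine ⟨?_, e⟩
  unfold ShortV
  rw [e]
  exact h

lemma shortV_move (f : Diag n) {i j x : Fin (2 * n)} (hi : ¬ ShortV f i) (h : ShortV f x) :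
    ShortV (move f i j) x ∧ (move f i j).1 x = f.1 x := by
  unfold move
  split_ifs with hj
  · exact ⟨h, rfl⟩
  · exact shortV_swapD f hi hj h

lemma numShort_mono (f g : Diag n) (h : ∀ x, ShortV f x → g.1 x = f.1 x) :
    numShort f ≤ numShort g := by
  unfold numShort
  apply card_le_card
  intro x hx
  rw [mem_filter] at hx ⊢
  refine ⟨mem_univ _, ?_⟩
  rw [h x (Or.inl hx.2)]
  exact hx.2

lemma numShort_move (f : Diag n) {i j : Fin (2 * n)} (hi : ¬ ShortV f i) :
    numShort f ≤ numShort (move f i j) :=
  numShort_mono f _ fun x hx => (shortV_move f hi hx).2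

/-- there is a short endpoint weakly between `x` and `y` -/
def Wall (f : Diag n) (x y : Fin (2 * n)) : Prop :=
  ∃ z, ShortV f z ∧ min x y ≤ z ∧ z ≤ max x y

lemma cryst_iff (f : Diag n) : Crystallized f ↔ ∀ x, Wall f x (f.1 x) := by
  classical
  constructor
  · intro h x
    rcases h x with h1 | ⟨B, hB, h1⟩
    · exact ⟨x, h1, min_le_left _ _, le_max_left _ _⟩
    · by_contra hw
      unfold Wall at hw
      push Not at hw
      -- the union of B and the interval is a run
      set I := univ.filter (fun z : Fin (2 * n) => min x (f.1 x) ≤ z ∧ z ≤ max x (f.1 x)) with hI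
      have hmem : ∀ z, z ∈ I ↔ min x (f.1 x) ≤ z ∧ z ≤ max x (f.1 x) := by
        intro z
        rw [hI, mem_filter]
        simp
      have hIs : ∀ z ∈ I, ¬ ShortV f z := by
        intro z hz hs
        rw [hmem] at hz
        exact absurd hz.2 (not_le.2 (hw z hs hz.1))
      -- common point
      obtain ⟨c, hcB, hcI⟩ : ∃ c, c ∈ B ∧ c ∈ I := by
        rcases h1 with h1 | h1
        · exact ⟨x, h1.1, (hmem _).2 ⟨min_le_left _ _, le_max_left _ _⟩⟩
        · exact ⟨f.1 x, h1.2, (hmem _).2 ⟨min_le_right _ _, le_max_right _ _⟩⟩
      have hrun : Run f (B ∪ I) := by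
        refine ⟨⟨c, mem_union_left _ hcB⟩, ?_, ?_⟩
        · intro u hu v hv z huz hzv
          rw [mem_union] at hu hv ⊢
          rcases hu with hu | hu
          · rcases hv with hv | hv
            · exact Or.inl (hB.1.2.1 u hu v hv z huz hzv)
            · rcases le_total z c with h | h
              · exact Or.inl (hB.1.2.1 u hu c hcB z huz h)
              · right
                rw [hmem] at hv hcI ⊢
                exact ⟨hcI.1.trans h, hzv.trans hv.2⟩
          · rcases hv with hv | hv
            · rcases le_total z c with h | h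
              · right
                rw [hmem] at hu hcI ⊢
                exact ⟨hu.1.trans huz, h.trans hcI.2⟩
              · exact Or.inl (hB.1.2.1 c hcB v hv z h hzv)
            · right
              rw [hmem] at hu hv ⊢
              exact ⟨hu.1.trans huz, hzv.trans hv.2⟩
        · intro z hz
          rw [mem_union] at hz
          rcases hz with hz | hz
          · exact hB.1.2.2 z hz
          · exact hIs z hz
      have heq := hB.2 _ hrun subset_union_left
      have hx : x ∈ B := by
        rw [← heq]
        exact mem_union_right _ ((hmem _).2 ⟨min_le_left _ _, le_max_left _ _⟩)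
      have hfx : f.1 x ∈ B := by
        rw [← heq]
        exact mem_union_right _ ((hmem _).2 ⟨min_le_right _ _, le_max_right _ _⟩)
      rcases h1 with h1 | h1
      · exact h1.2 hfx
      · exact h1.1 hx
  · intro h x
    by_cases hx : ShortV f x
    · exact Or.inl hx
    · right
      obtain ⟨z, hz, hz1, hz2⟩ := h x
      -- the maximal run containing x
      set B := univ.filter (fun y : Fin (2 * n) => ∀ w, min x y ≤ w → w ≤ max x y → ¬ ShortV f w)
        with hB
      have hmem : ∀ y, y ∈ B ↔ ∀ w, min x y ≤ w → w ≤ max x y → ¬ ShortV f w := by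
        intro y
        rw [hB, mem_filter]
        simp
      have hxB : x ∈ B := by
        rw [hmem]
        intro w h1 h2 h3
        rw [min_self] at h1
        rw [max_self] at h2
        rw [le_antisymm h2 h1] at h3
        exact hx h3
      refine ⟨B, ⟨⟨⟨x, hxB⟩, ?_, ?_⟩, ?_⟩, Or.inl ⟨hxB, ?_⟩⟩
      · intro u hu v hv y huy hyv
        rw [hmem] at hu hv ⊢
        intro w h1 h2
        rcases le_total w x with h3 | h3
        · rcases le_total y x with h4 | h4
          · rw [min_eq_right h4] at h1
            exact hu w ((min_le_right _ _).trans (huy.trans h1)) (h3.trans (le_max_left _ _))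
          · rw [min_eq_left h4] at h1
            exact hu w ((min_le_left _ _).trans h1) (h3.trans (le_max_left _ _))
        · rcases le_total y x with h4 | h4
          · rw [max_eq_left h4] at h2
            exact hv w ((min_le_left _ _).trans h3) (h2.trans (le_max_left _ _))
          · rw [max_eq_right h4] at h2
            exact hv w ((min_le_left _ _).trans h3) ((h2.trans hyv).trans (le_max_right _ _))
      · intro y hy
        rw [hmem] at hy
        exact hy y (min_le_right _ _) (le_max_right _ _)
      · intro B' hB' hBB'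
        apply subset_antisymm _ hBB'
        intro y hy
        rw [hmem]
        intro w h1 h2
        apply hB'.2.2
        have hx' := hBB' hxB
        rcases le_total x y with h3 | h3
        · rw [min_eq_left h3] at h1
          rw [max_eq_right h3] at h2
          exact hB'.2.1 x hx' y hy w h1 h2
        · rw [min_eq_right h3] at h1
          rw [max_eq_left h3] at h2
          exact hB'.2.1 y hy x hx' w h1 h2
      · rw [hmem]
        intro hcon
        exact hcon z hz1 hz2 hz

end Pool.Agent.LibCryst
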