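import Pool.Agent.LibCryst.Basic

set_option autoImplicit false

open Finset Filter

namespace Pool.Agent.LibCryst

variable {n : ℕ}

lemma nbrs_nonempty (i : Fin (2 * n)) : (nbrs i).Nonempty := by
  have hi := i.2
  by_cases h : i.val + 1 < 2 * n
  · exact ⟨⟨i.val + 1, h⟩, by unfold nbrs; simp⟩
  · exact ⟨⟨i.val - 1, by omega⟩, by unfold nbrs; simp; omega⟩

lemma free_nonempty (f : Diag n) (h : ¬ Crystallized f) : (free f).Nonempty := by
  rw [cryst_iff] at h
  push Not at h
  obtain ⟨x, hx⟩ := h
  refine ⟨x, ?_⟩
  unfold free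
  rw [mem_filter]
  refine ⟨mem_univ _, fun hs => hx ⟨x, hs, min_le_left _ _, le_max_left _ _⟩⟩

lemma trans_nonneg (f g : Diag n) : 0 ≤ trans f g := by
  classical
  unfold trans
  split_ifs
  · norm_num
  · norm_num
  · apply sum_nonneg
    intro i _
    apply mul_nonneg (by positivity)
    apply sum_nonneg
    intro j _
    apply mul_nonneg (by positivity)
    split_ifs <;> norm_num

/-- the transition operator -/
noncomputable def Kop (h : Diag n → ℝ) (f : Diag n) : ℝ := ∑ g, trans f g * h g

lemma Kop_cryst (h : Diag n → ℝ) (f : Diag n) (hf : Crystallized f) : Kop h f = h f := by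
  classical
  unfold Kop trans
  simp only [if_pos hf]
  simp

lemma Kop_not (h : Diag n → ℝ) (f : Diag n) (hf : ¬ Crystallized f) :
    Kop h f = ∑ i ∈ free f, (1 / ((free f).card : ℝ)) *
      ∑ j ∈ nbrs i, (1 / ((nbrs i).card : ℝ)) * h (move f i j) := by
  classical
  unfold Kop trans
  simp only [if_neg hf, sum_mul]
  rw [sum_comm]
  apply sum_congr rfl
  intro i _
  simp only [mul_assoc, ← mul_sum]
  congr 1
  simp only [sum_mul]
  rw [sum_comm]
  congr 1
  apply sum_congr rfl
  intro j _
  simp

lemma Kop_one (f : Diag n) : Kop (fun _ => (1 : ℝ)) f = 1 := by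
  by_cases hf : Crystallized f
  · rw [Kop_cryst _ _ hf]
  · rw [Kop_not _ _ hf]
    have h1 : ∀ i : Fin (2 * n), ∑ j ∈ nbrs i, (1 / ((nbrs i).card : ℝ)) * (1 : ℝ) = 1 := by
      intro i
      have h2 : 0 < ((nbrs i).card : ℝ) := by exact_mod_cast (nbrs_nonempty i).card_pos
      rw [mul_one, sum_const, nsmul_eq_mul, mul_one_div_cancel h2.ne']
    rw [sum_congr rfl fun i _ => by rw [h1 i, mul_one]]
    have h2 : 0 < ((free f).card : ℝ) := by exact_mod_cast (free_nonempty f hf).card_pos
    rw [sum_const, nsmul_eq_mul, mul_one_div_cancel h2.ne']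

lemma trans_sum (f : Diag n) : ∑ g, trans f g = 1 := by
  have := Kop_one f
  unfold Kop at this
  simpa using this

lemma Kop_mono {h k : Diag n → ℝ} (hk : ∀ f, h f ≤ k f) (f : Diag n) : Kop h f ≤ Kop k f := by
  unfold Kop
  apply sum_le_sum
  intro g _
  exact mul_le_mul_of_nonneg_left (hk g) (trans_nonneg f g)

/-- iterated operator -/
noncomputable def Kit (h : Diag n → ℝ) (t : ℕ) : Diag n → ℝ := Kop^[t] h

lemma Kit_zero (h : Diag n → ℝ) : Kit h 0 = h := rfl

lemma Kit_succ (h : Diag n → ℝ) (t : ℕ) : Kit h (t + 1) = Kop (Kit h t) := by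
  unfold Kit
  rw [Function.iterate_succ_apply']

lemma law_nonneg (t : ℕ) (f : Diag n) : 0 ≤ law n t f := by
  induction t generalizing f with
  | zero => unfold law; positivity
  | succ t ih =>
    unfold law
    exact sum_nonneg fun g _ => mul_nonneg (ih g) (trans_nonneg g f)

lemma law_Kit (h : Diag n → ℝ) (t : ℕ) :
    ∑ f, law n t f * h f = ∑ f, law n 0 f * Kit h t f := by
  induction t generalizing h with
  | zero => rfl
  | succ t ih =>
    have e : ∑ f, law n (t + 1) f * h f = ∑ f, law n t f * Kop h f := by
      unfold Kop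
      simp only [mul_sum]
      rw [sum_comm]
      apply sum_congr rfl
      intro g _
      show (∑ f, law n t f * trans f g) * h g = _
      rw [sum_mul]
      exact sum_congr rfl fun f _ => mul_assoc _ _ _
    rw [e, ih]
    apply sum_congr rfl
    intro f _
    unfold Kit
    rw [Function.iterate_succ_apply]

open Classical in
/-- indicator of being stopped in `s` -/
noncomputable def ind (n : ℕ) (s : Set ℕ) (f : Diag n) : ℝ :=
  if Crystallized f ∧ numShort f ∈ s then 1 else 0

lemma ind_nonneg (s : Set ℕ) (f : Diag n) : 0 ≤ ind n s f := by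
  unfold ind; split_ifs <;> norm_num

lemma ind_le_one (s : Set ℕ) (f : Diag n) : ind n s f ≤ 1 := by
  unfold ind; split_ifs <;> norm_num

lemma stopped_eq (t : ℕ) (s : Set ℕ) :
    stopped n t s = ∑ f, law n 0 f * Kit (ind n s) t f := by
  classical
  rw [← law_Kit]
  unfold stopped ind
  rw [sum_filter]
  apply sum_congr rfl
  intro f _
  split_ifs <;> simp

lemma Kit_ind_nonneg (s : Set ℕ) (t : ℕ) (f : Diag n) : 0 ≤ Kit (ind n s) t f := by
  induction t generalizing f with
  | zero => exact ind_nonneg s f
  | succ t ih =>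
    rw [Kit_succ]
    unfold Kop
    exact sum_nonneg fun g _ => mul_nonneg (trans_nonneg f g) (ih g)

lemma Kit_ind_le_one (s : Set ℕ) (t : ℕ) (f : Diag n) : Kit (ind n s) t f ≤ 1 := by
  induction t generalizing f with
  | zero => exact ind_le_one s f
  | succ t ih =>
    rw [Kit_succ]
    calc Kop (Kit (ind n s) t) f ≤ Kop (fun _ => 1) f := Kop_mono ih f
      _ = 1 := Kop_one f

lemma Kit_ind_mono (s : Set ℕ) (f : Diag n) : Monotone (fun t => Kit (ind n s) t f) := by
  have h : ∀ t, ∀ f : Diag n, Kit (ind n s) t f ≤ Kit (ind n s) (t + 1) f := by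
    intro t
    induction t with
    | zero =>
      intro f
      rw [Kit_succ, Kit_zero]
      by_cases hf : Crystallized f
      · rw [Kop_cryst _ _ hf]
      · have : ind n s f = 0 := by
          unfold ind
          rw [if_neg (fun h => hf h.1)]
        rw [this]
        unfold Kop
        exact sum_nonneg fun g _ => mul_nonneg (trans_nonneg f g) (ind_nonneg s g)
    | succ t ih =>
      intro f
      rw [Kit_succ _ (t + 1)]
      conv_lhs => rw [Kit_succ _ t]
      exact Kop_mono ih f
  exact monotone_nat_of_le_succ fun t => h t f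

/-- probability that the process started at `f` stops in `s` -/
noncomputable def hlim (n : ℕ) (s : Set ℕ) (f : Diag n) : ℝ := ⨆ t, Kit (ind n s) t f

lemma hlim_bdd (s : Set ℕ) (f : Diag n) : BddAbove (Set.range fun t => Kit (ind n s) t f) :=
  ⟨1, by rintro _ ⟨t, rfl⟩; exact Kit_ind_le_one s t f⟩

lemma hlim_tendsto (s : Set ℕ) (f : Diag n) :
    Tendsto (fun t => Kit (ind n s) t f) atTop (nhds (hlim n s f)) :=
  tendsto_atTop_ciSup (Kit_ind_mono s f) (hlim_bdd s f)

lemma hlim_nonneg (s : Set ℕ) (f : Diag n) : 0 ≤ hlim n s f :=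
  ge_of_tendsto' (hlim_tendsto s f) fun t => Kit_ind_nonneg s t f

lemma hlim_le_one (s : Set ℕ) (f : Diag n) : hlim n s f ≤ 1 :=
  le_of_tendsto' (hlim_tendsto s f) fun t => Kit_ind_le_one s t f

lemma hlim_harm (s : Set ℕ) (f : Diag n) : Kop (hlim n s) f = hlim n s f := by
  have h1 : Tendsto (fun t => Kit (ind n s) (t + 1) f) atTop (nhds (hlim n s f)) :=
    (hlim_tendsto s f).comp (tendsto_add_atTop_nat 1)
  have h2 : Tendsto (fun t => Kit (ind n s) (t + 1) f) atTop (nhds (Kop (hlim n s) f)) := by
    simp only [Kit_succ]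
    unfold Kop
    apply tendsto_finsetSum
    intro g _
    exact (hlim_tendsto s g).const_mul _
  exact tendsto_nhds_unique h2 h1

lemma PX_eq (s : Set ℕ) : PX n s = ∑ f, law n 0 f * hlim n s f := by
  unfold PX
  have h1 : Tendsto (fun t => stopped n t s) atTop (nhds (∑ f, law n 0 f * hlim n s f)) := by
    simp only [stopped_eq]
    apply tendsto_finsetSum
    intro g _
    exact (hlim_tendsto s g).const_mul _
  have h2 : Monotone (fun t => stopped n t s) := by
    intro t t' htt'
    simp only [stopped_eq]
    apply sum_le_sum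
    intro f _
    exact mul_le_mul_of_nonneg_left (Kit_ind_mono s f htt') (law_nonneg 0 f)
  have h3 : BddAbove (Set.range fun t => stopped n t s) := by
    refine ⟨∑ f, law n 0 f * hlim n s f, ?_⟩
    rintro _ ⟨t, rfl⟩
    exact h2.ge_of_tendsto h1 t
  exact tendsto_nhds_unique (tendsto_atTop_ciSup h2 h3) h1

lemma hlim_cryst (s : Set ℕ) (f : Diag n) (hf : Crystallized f) (hs : numShort f ∈ s) :
    hlim n s f = 1 := by
  apply le_antisymm (hlim_le_one s f)
  have := le_ciSup (hlim_bdd s f) 0
  rw [Kit_zero] at this
  unfold hlim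
  refine le_trans (le_of_eq ?_) this
  unfold ind
  rw [if_pos ⟨hf, hs⟩]

/-- If a harmonic function attains its minimum at a non-crystallized diagram then it attains it
at every diagram reachable in one move. -/
lemma min_step (s : Set ℕ) (m : ℝ) (hm : ∀ f : Diag n, m ≤ hlim n s f) (f : Diag n)
    (hf : ¬ Crystallized f) (he : hlim n s f = m) (i j : Fin (2 * n)) (hi : ¬ ShortV f i)
    (hj : j ∈ nbrs i) : hlim n s (move f i j) = m := by
  have h1 := hlim_harm s f
  rw [Kop_not _ _ hf, he] at h1
  have hF : 0 < ((free f).card : ℝ) := by exact_mod_cast (free_nonempty f hf).card_pos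
  have hN : ∀ i : Fin (2 * n), 0 < ((nbrs i).card : ℝ) := fun i => by
    exact_mod_cast (nbrs_nonempty i).card_pos
  have hlow : ∀ i : Fin (2 * n), m ≤ ∑ j ∈ nbrs i, (1 / ((nbrs i).card : ℝ)) *
      hlim n s (move f i j) := by
    intro i
    calc m = ∑ j ∈ nbrs i, (1 / ((nbrs i).card : ℝ)) * m := by
          rw [← mul_sum, sum_const, nsmul_eq_mul, ← mul_assoc, one_div_mul_cancel (hN i).ne',
            one_mul]
      _ ≤ _ := by
          apply sum_le_sum
          intro j _
          exact mul_le_mul_of_nonneg_left (hm _) (by positivity)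
  have hsum : ∑ i ∈ free f, (1 / ((free f).card : ℝ)) * m = m := by
    rw [← mul_sum, sum_const, nsmul_eq_mul, ← mul_assoc, one_div_mul_cancel hF.ne', one_mul]
  have hle : ∀ i ∈ free f, (1 / ((free f).card : ℝ)) * m ≤ (1 / ((free f).card : ℝ)) *
      ∑ j ∈ nbrs i, (1 / ((nbrs i).card : ℝ)) * hlim n s (move f i j) := fun i _ =>
    mul_le_mul_of_nonneg_left (hlow i) (by positivity)
  have heq := (sum_eq_sum_iff_of_le hle).1 (hsum.trans h1.symm) i (by
    unfold free
    rw [mem_filter]
    exact ⟨mem_univ _, hi⟩)
  have heq2 : m = ∑ j ∈ nbrs i, (1 / ((nbrs i).card : ℝ)) * hlim n s (move f i j) :=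
    mul_left_cancel₀ (by positivity) heq
  have hsum2 : ∑ j ∈ nbrs i, (1 / ((nbrs i).card : ℝ)) * m = m := by
    rw [← mul_sum, sum_const, nsmul_eq_mul, ← mul_assoc, one_div_mul_cancel (hN i).ne', one_mul]
  have hle2 : ∀ j ∈ nbrs i, (1 / ((nbrs i).card : ℝ)) * m ≤
      (1 / ((nbrs i).card : ℝ)) * hlim n s (move f i j) := fun j _ =>
    mul_le_mul_of_nonneg_left (hm _) (by positivity)
  have heq3 := (sum_eq_sum_iff_of_le hle2).1 (hsum2.trans heq2) j hj
  have h5 : (1 : ℝ) / ((nbrs i).card : ℝ) ≠ 0 := by
    have := hN i
    positivity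
  exact (mul_left_cancel₀ h5 heq3).symm

lemma numShort_le (f : Diag n) : numShort f ≤ 2 * n := by
  unfold numShort
  exact (card_le_univ _).trans (by rw [Fintype.card_fin])

lemma progress (s : Set ℕ) (m : ℝ) (hm : ∀ f : Diag n, m ≤ hlim n s f)
    (hc : ∀ f : Diag n, Crystallized f → hlim n s f ≠ m) :
    ∀ k d : ℕ, ∀ f : Diag n, 2 * n - numShort f ≤ k → ∀ x y : Fin (2 * n), f.1 x = y →
      y.val = x.val + d → ¬ Wall f x y → hlim n s f = m → False := by
  intro k
  induction k with
  | zero =>
    intro d f hk x y hxy hd hw he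
    have h1 := numShort_le f
    have h2 : numShort f = 2 * n := by omega
    have h3 : ShortV f x := by
      unfold numShort at h2
      have h4 : univ.filter (fun x : Fin (2 * n) => (f.1 x).val = x.val + 1) = univ := by
        apply eq_univ_of_card
        rw [h2, Fintype.card_fin]
      have h5 : x ∈ univ.filter (fun x : Fin (2 * n) => (f.1 x).val = x.val + 1) := by
        rw [h4]; exact mem_univ _
      exact Or.inl (mem_filter.1 h5).2
    exact hw ⟨x, h3, min_le_left _ _, le_max_left _ _⟩
  | succ k ihk =>
    intro d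
    induction d with
    | zero =>
      intro f hk x y hxy hd hw he
      exact dne f x (hxy.trans (Fin.ext (by omega)))
    | succ d ihd =>
      intro f hk x y hxy hd hw he
      have hxs : ¬ ShortV f x := fun h => hw ⟨x, h, min_le_left _ _, le_max_left _ _⟩
      have hcr : ¬ Crystallized f := by
        intro h
        exact hc f h he
      have hd1 : 1 ≤ d := by
        by_contra hcon
        have : d = 0 := by omega
        subst this
        apply hxs
        left
        rw [hxy, hd]
      have hy2 := y.2
      have hj : x.val + 1 < 2 * n := by omega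
      set j : Fin (2 * n) := ⟨x.val + 1, hj⟩ with hjdef
      have hxy' : x ≤ y := by
        rw [Fin.le_def]; omega
      have hjs : ¬ ShortV f j := fun h => hw ⟨j, h, by
        rw [min_eq_left hxy', Fin.le_def]; simp [hjdef], by
        rw [max_eq_right hxy', Fin.le_def]; simp only [hjdef]; omega⟩
      have hjn : j ∈ nbrs x := by
        unfold nbrs
        rw [mem_filter]
        exact ⟨mem_univ _, Or.inl rfl⟩
      have hg := min_step s m hm f hcr he x j hxs hjn
      have hmv : move f x j = swapD f x j := by
        unfold move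
        rw [if_neg hjs]
      have hyx : y ≠ x := by
        intro e
        rw [e] at hd
        omega
      have hyj : y ≠ j := by
        intro e
        have := congrArg Fin.val e
        simp only [hjdef] at this
        omega
      have hgj : (move f x j).1 j = y := by
        rw [hmv, swapD_apply, Equiv.swap_apply_right, hxy, Equiv.swap_apply_of_ne_of_ne hyx hyj]
      have hns := numShort_move f (j := j) hxs
      rcases hns.eq_or_lt with heq | hlt
      · -- same short chords
        have hset : univ.filter (fun x : Fin (2 * n) => (f.1 x).val = x.val + 1) =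
            univ.filter (fun z : Fin (2 * n) => ((move f x j).1 z).val = z.val + 1) := by
          apply eq_of_subset_of_card_le
          · intro z hz
            rw [mem_filter] at hz ⊢
            refine ⟨mem_univ _, ?_⟩
            rw [(shortV_move f hxs (Or.inl hz.2)).2]
            exact hz.2
          · exact le_of_eq heq.symm
        have hsv : ∀ z, ShortV (move f x j) z → ShortV f z := by
          intro z hz
          rcases hz with hz | hz
          · have : z ∈ univ.filter (fun z : Fin (2 * n) => ((move f x j).1 z).val = z.val + 1) :=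
              mem_filter.2 ⟨mem_univ _, hz⟩
            rw [← hset] at this
            exact Or.inl (mem_filter.1 this).2
          · have : (move f x j).1 z ∈
                univ.filter (fun z : Fin (2 * n) => ((move f x j).1 z).val = z.val + 1) :=
              mem_filter.2 ⟨mem_univ _, by rw [dinv]; exact hz⟩
            rw [← hset] at this
            have h6 := (mem_filter.1 this).2
            have h7 : ShortV f ((move f x j).1 z) := Or.inl h6
            have h8 := (shortV_move f hxs h7 (j := j)).2
            rw [dinv] at h8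
            rw [h8]
            exact shortV_partner f h7
        refine ihd (move f x j) (by omega) j y hgj ?_ ?_ hg
        · simp only [hjdef]; omega
        · rintro ⟨z, hz, hz1, hz2⟩
          have hjy : j ≤ y := by
            rw [Fin.le_def]; simp only [hjdef]; omega
          rw [min_eq_left hjy] at hz1
          rw [max_eq_right hjy] at hz2
          refine hw ⟨z, hsv z hz, ?_, ?_⟩
          · rw [min_eq_left hxy']
            exact le_trans (by rw [Fin.le_def]; simp [hjdef]) hz1
          · rw [max_eq_right hxy']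
            exact hz2
      · by_cases hcg : Crystallized (move f x j)
        · exact hc _ hcg hg
        · rw [cryst_iff] at hcg
          push Not at hcg
          obtain ⟨u, hu⟩ := hcg
          have hk' : 2 * n - numShort (move f x j) ≤ k := by
            have := numShort_le (move f x j)
            omega
          rcases le_total u ((move f x j).1 u) with h | h
          · rw [Fin.le_def] at h
            exact ihk (((move f x j).1 u).val - u.val) (move f x j) hk' u _ rfl (by omega) hu hg
          · rw [Fin.le_def] at h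
            refine ihk (u.val - ((move f x j).1 u).val) (move f x j) hk' ((move f x j).1 u) u
              (dinv _ _) (by omega) ?_ hg
            rintro ⟨z, hz, hz1, hz2⟩
            exact hu ⟨z, hz, by rwa [min_comm], by rwa [max_comm]⟩

theorem hlim_univ (f : Diag n) : hlim n Set.univ f = 1 := by
  classical
  have hne : (univ : Finset (Diag n)).Nonempty := ⟨f, mem_univ f⟩
  obtain ⟨f0, _, hf0⟩ := exists_min_image univ (fun g : Diag n => hlim n Set.univ g) hne
  have hm : ∀ g : Diag n, hlim n Set.univ f0 ≤ hlim n Set.univ g := fun g => hf0 g (mem_univ g)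
  by_contra hcon
  have h1 : hlim n Set.univ f0 < 1 := lt_of_le_of_ne (hlim_le_one _ _) (by
    intro h
    exact hcon (le_antisymm (hlim_le_one _ _) (h ▸ hm f)))
  have hc : ∀ g : Diag n, Crystallized g → hlim n Set.univ g ≠ hlim n Set.univ f0 := by
    intro g hg h
    rw [hlim_cryst _ g hg (Set.mem_univ _)] at h
    exact h1.ne h.symm
  by_cases hcf : Crystallized f0
  · exact hc f0 hcf rfl
  · rw [cryst_iff] at hcf
    push Not at hcf
    obtain ⟨u, hu⟩ := hcf
    rcases le_total u (f0.1 u) with h | h
    · rw [Fin.le_def] at h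
      exact progress _ _ hm hc _ ((f0.1 u).val - u.val) f0 le_rfl u _ rfl (by omega) hu rfl
    · rw [Fin.le_def] at h
      refine progress _ _ hm hc _ (u.val - (f0.1 u).val) f0 le_rfl (f0.1 u) u
        (dinv _ _) (by omega) ?_ rfl
      rintro ⟨z, hz, hz1, hz2⟩
      exact hu ⟨z, hz, by rwa [min_comm], by rwa [max_comm]⟩

lemma Kit_ge (k : ℕ) (t : ℕ) : ∀ f : Diag n, k ≤ numShort f →
    Kit (ind n {x | k ≤ x}) t f = Kit (ind n Set.univ) t f := by
  induction t with
  | zero =>
    intro f hf
    rw [Kit_zero, Kit_zero]
    unfold ind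
    have h1 : numShort f ∈ {x | k ≤ x} := hf
    have h2 : numShort f ∈ (Set.univ : Set ℕ) := Set.mem_univ _
    by_cases hc : Crystallized f
    · rw [if_pos ⟨hc, h1⟩, if_pos ⟨hc, h2⟩]
    · rw [if_neg (fun h => hc h.1), if_neg (fun h => hc h.1)]
  | succ t ih =>
    intro f hf
    rw [Kit_succ, Kit_succ]
    by_cases hc : Crystallized f
    · rw [Kop_cryst _ _ hc, Kop_cryst _ _ hc, ih f hf]
    · rw [Kop_not _ _ hc, Kop_not _ _ hc]
      apply sum_congr rfl
      intro i hi
      unfold free at hi
      rw [mem_filter] at hi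
      congr 1
      apply sum_congr rfl
      intro j _
      rw [ih _ (hf.trans (numShort_move f hi.2))]

theorem hlim_ge (k : ℕ) (f : Diag n) (hf : k ≤ numShort f) : hlim n {x | k ≤ x} f = 1 := by
  rw [← hlim_univ f]
  unfold hlim
  congr 1
  funext t
  exact Kit_ge k t f hf

theorem PX_univ [Nonempty (Diag n)] : PX n Set.univ = 1 := by
  rw [PX_eq]
  simp only [hlim_univ, mul_one]
  unfold law
  rw [sum_const, nsmul_eq_mul, card_univ, mul_one_div_cancel]
  exact_mod_cast Fintype.card_ne_zero

end Pool.Agent.LibCryst
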