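import Mathlib

set_option autoImplicit false

open Finset

namespace Pool.Agent.LibCryst

/-- A linear chord diagram with `n` chords: a fixed-point-free involution of the `2n` vertices
`0, 1, ..., 2n-1` placed in this order on a line. -/
abbrev Diag (n : ℕ) : Type :=
  {f : Fin (2 * n) → Fin (2 * n) // ∀ x, f x ≠ x ∧ f (f x) = x}

/-- `x` is an endpoint of a short chord (a chord joining two adjacent vertices). -/
def ShortV {n : ℕ} (f : Diag n) (x : Fin (2 * n)) : Prop :=
  (f.1 x).val = x.val + 1 ∨ x.val = (f.1 x).val + 1

instance {n : ℕ} (f : Diag n) : DecidablePred (ShortV f) := fun x => by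
  unfold ShortV; infer_instance

/-- The number of short chords. -/
def numShort {n : ℕ} (f : Diag n) : ℕ :=
  (univ.filter (fun x : Fin (2 * n) => (f.1 x).val = x.val + 1)).card

/-- A nonempty set of consecutive vertices containing no endpoint of a short chord. -/
def Run {n : ℕ} (f : Diag n) (B : Finset (Fin (2 * n))) : Prop :=
  B.Nonempty ∧ (∀ x ∈ B, ∀ y ∈ B, ∀ z, x ≤ z → z ≤ y → z ∈ B) ∧ ∀ x ∈ B, ¬ ShortV f x

/-- A bubble: a maximal such set. -/
def Bubble {n : ℕ} (f : Diag n) (B : Finset (Fin (2 * n))) : Prop :=
  Run f B ∧ ∀ B', Run f B' → B ⊆ B' → B' = B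

/-- A diagram is crystallized if every chord is either short or a bridge of some bubble, that is,
has exactly one endpoint in that bubble. -/
def Crystallized {n : ℕ} (f : Diag n) : Prop :=
  ∀ x, ShortV f x ∨ ∃ B, Bubble f B ∧ ((x ∈ B ∧ f.1 x ∉ B) ∨ (x ∉ B ∧ f.1 x ∈ B))

/-- The vertices adjacent to `i`. -/
def nbrs {n : ℕ} (i : Fin (2 * n)) : Finset (Fin (2 * n)) :=
  univ.filter (fun j => j.val = i.val + 1 ∨ i.val = j.val + 1)

/-- The vertices that are endpoints of non-short chords. -/
def free {n : ℕ} (f : Diag n) : Finset (Fin (2 * n)) := univ.filter (fun i => ¬ ShortV f i)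

/-- The image of a diagram under the transposition `(i j)`. -/
def swapD {n : ℕ} (f : Diag n) (i j : Fin (2 * n)) : Diag n :=
  ⟨fun x => Equiv.swap i j (f.1 (Equiv.swap i j x)), by
    intro x
    constructor
    · intro h
      apply (f.2 (Equiv.swap i j x)).1
      have := congrArg (Equiv.swap i j) h
      rwa [Equiv.swap_apply_self] at this
    · simp only [Equiv.swap_apply_self, (f.2 _).2]⟩

/-- The result of the move with chosen vertex `i` and chosen neighbour `j`. -/
def move {n : ℕ} (f : Diag n) (i j : Fin (2 * n)) : Diag n :=
  if ShortV f j then f else swapD f i j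

open Classical in
/-- The transition probability from `f` to `g` of the crystallization process; crystallized
diagrams are absorbing (the process stops there). Otherwise `i` is uniform among the endpoints of
non-short chords and `j` is uniform among the vertices adjacent to `i`. -/
noncomputable def trans {n : ℕ} (f g : Diag n) : ℝ :=
  if Crystallized f then (if f = g then 1 else 0)
  else ∑ i ∈ free f, (1 / ((free f).card : ℝ)) *
    ∑ j ∈ nbrs i, (1 / ((nbrs i).card : ℝ)) * (if move f i j = g then 1 else 0)

/-- The law at time `t` of the process started from a uniformly random diagram. -/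
noncomputable def law (n : ℕ) : ℕ → Diag n → ℝ
  | 0 => fun _ => 1 / (Fintype.card (Diag n) : ℝ)
  | t + 1 => fun g => ∑ f : Diag n, law n t f * trans f g

open Classical in
/-- The probability that the process has stopped by time `t` at a diagram whose number of short
chords lies in `s`. -/
noncomputable def stopped (n t : ℕ) (s : Set ℕ) : ℝ :=
  ∑ f ∈ univ.filter (fun f : Diag n => Crystallized f ∧ numShort f ∈ s), law n t f

/-- The probability that `T < ∞` and `X_n ∈ s` (the increasing limit over time of the
probabilities `stopped n t s`). -/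
noncomputable def PX (n : ℕ) (s : Set ℕ) : ℝ := ⨆ t, stopped n t s

open Classical in
/-- The probability that `Y_n ∈ s`: the proportion, among the crystallized diagrams with `n`
chords, of those whose number of short chords lies in `s`. -/
noncomputable def PY (n : ℕ) (s : Set ℕ) : ℝ :=
  ((univ.filter (fun f : Diag n => Crystallized f ∧ numShort f ∈ s)).card : ℝ) /
    ((univ.filter (fun f : Diag n => Crystallized f)).card : ℝ)

/-- With `P n s` the probability that a random variable `Z_n` lies in `s`, this says that
`(Z_n - a_n) / b_n` converges in distribution to the standard normal law. -/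
def NormalLimit (P : ℕ → Set ℕ → ℝ) (a b : ℕ → ℝ) : Prop :=
  ∀ x : ℝ, Filter.Tendsto (fun n => P n {k | ((k : ℝ) - a n) / b n ≤ x}) Filter.atTop
    (nhds ((ProbabilityTheory.gaussianReal 0 1).real (Set.Iic x)))

end Pool.Agent.LibCryst
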