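import Pool.Agent.LibCryst.Switch

set_option autoImplicit false

open Finset

namespace Pool.Agent.LibCryst

variable {n : ℕ}

/-- periodic prescribed short chords -/
def A0 (n p : ℕ) : Finset (Fin (2 * n)) :=
  univ.filter (fun a => a.val % p = p - 2 ∧ a.val + 1 < 2 * n)

lemma mod_succ_of (p x : ℕ) (hp : 2 ≤ p) (h : x % p = p - 2) : (x + 1) % p = p - 1 := by
  rw [Nat.add_mod, h, Nat.mod_eq_of_lt (by omega : 1 < p), Nat.mod_eq_of_lt (by omega)]
  omega

lemma A0_card (n p : ℕ) (_hp : 2 ≤ p) : (A0 n p).card ≤ 2 * n / p + 1 := by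
  have h : (A0 n p).card ≤ (range (2 * n / p + 1)).card := by
    apply card_le_card_of_injOn (fun a => a.val / p)
    · intro a _
      rw [mem_coe, mem_range]
      have := Nat.div_le_div_right (c := p) a.2.le
      simp only
      omega
    · intro a ha a' ha' h
      unfold A0 at ha ha'
      rw [coe_filter, Set.mem_ofPred_eq] at ha ha'
      apply Fin.ext
      have h1 := Nat.div_add_mod a.val p
      have h2 := Nat.div_add_mod a'.val p
      simp only at h
      rw [ha.2.1, h] at h1
      rw [ha'.2.1] at h2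
      omega
  rwa [card_range] at h

lemma A0_ge (n p : ℕ) (hp : 2 ≤ p) :
    (Fintype.card (Diag n) : ℝ) ≤ (2 * n : ℝ) ^ (A0 n p).card * cnt (Pat (A0 n p)) := by
  apply pat_ge
  intro a ha
  unfold A0 at ha
  rw [mem_filter] at ha
  refine ⟨ha.2.2, ?_⟩
  intro b hb hab
  unfold A0 at hb
  rw [mem_filter] at hb
  have := mod_succ_of p b.val hp hb.2.1
  rw [← hab, ha.2.1] at this
  omega

lemma zero_cryst (p : ℕ) (hp : 2 ≤ p) (f : Diag n) (hf : Pat (A0 n p) f)
    (h0 : (Int (A0 n p) (fun x => x.val / p) f).card = 0) : Crystallized f := by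
  rw [cryst_iff]
  rw [card_eq_zero] at h0
  -- the main claim
  have key : ∀ x y : Fin (2 * n), f.1 x = y → x ∉ VS (A0 n p) → x.val / p < y.val / p →
      Wall f x y := by
    intro x y hxy hx hlt
    have hxylt : x.val < y.val := by
      by_contra hcon
      have := Nat.div_le_div_right (c := p) (not_lt.1 hcon)
      omega
    have hy := y.2
    have hmod : x.val % p < p - 2 := by
      have h1 := Nat.mod_lt x.val (by omega : 0 < p)
      by_contra hcon
      have h2 : x.val % p = p - 2 ∨ x.val % p = p - 1 := by omega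
      apply hx
      rw [mem_VS]
      rcases h2 with h2 | h2
      · left
        unfold A0
        rw [mem_filter]
        exact ⟨mem_univ _, h2, by omega⟩
      · right
        have hx1 : 1 ≤ x.val := by
          by_contra hc
          have : x.val = 0 := by omega
          rw [this, Nat.zero_mod] at h2
          omega
        refine ⟨⟨x.val - 1, by omega⟩, ?_, by simp only; omega⟩
        unfold A0
        rw [mem_filter]
        refine ⟨mem_univ _, ?_, by simp only; omega⟩
        simp only
        have h3 := Nat.div_add_mod x.val p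
        have h4 : x.val - 1 = p - 2 + p * (x.val / p) := by omega
        rw [h4, Nat.add_mul_mod_self_left, Nat.mod_eq_of_lt (by omega)]
    have h3 := Nat.div_add_mod x.val p
    have h5 : p * (x.val / p) + p ≤ p * (y.val / p) := by
      have : p * (x.val / p + 1) ≤ p * (y.val / p) := Nat.mul_le_mul_left p hlt
      rwa [Nat.mul_add, mul_one] at this
    have h6 : p * (y.val / p) ≤ y.val := Nat.mul_div_le _ _
    have hz : p * (x.val / p) + (p - 2) < 2 * n := by omega
    refine ⟨⟨p * (x.val / p) + (p - 2), hz⟩, ?_, ?_, ?_⟩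
    · left
      apply hf
      unfold A0
      rw [mem_filter]
      refine ⟨mem_univ _, ?_, by simp only; omega⟩
      simp only
      rw [Nat.mul_add_mod, Nat.mod_eq_of_lt (by omega)]
    · rw [min_eq_left (by rw [Fin.le_def]; exact hxylt.le), Fin.le_def]
      simp only
      omega
    · rw [max_eq_right (by rw [Fin.le_def]; exact hxylt.le), Fin.le_def]
      simp only
      omega
  intro x
  by_cases hx : x ∈ VS (A0 n p)
  · rw [mem_VS] at hx
    have hs : ShortV f x := by
      rcases hx with hx | ⟨a, ha, hxa⟩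
      · exact Or.inl (hf x hx)
      · right
        have h1 : f.1 a = x := Fin.ext (by rw [hf a ha, hxa])
        rw [← h1, dinv, h1, hxa]
    exact ⟨x, hs, min_le_left _ _, le_max_left _ _⟩
  · have hxU : x ∈ UU (A0 n p) := (mem_UU _ _).2 hx
    have hne : (f.1 x).val / p ≠ x.val / p := by
      intro h
      have : x ∈ Int (A0 n p) (fun x => x.val / p) f := by
        unfold Int
        rw [mem_filter]
        exact ⟨hxU, h⟩
      rw [h0] at this
      exact absurd this (notMem_empty _)
    rcases lt_or_gt_of_ne hne with h | h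
    · have hfx : f.1 x ∉ VS (A0 n p) := (mem_UU _ _).1 (UU_partner _ f hf x hxU)
      obtain ⟨z, hz, hz1, hz2⟩ := key (f.1 x) x (dinv f x) hfx h
      exact ⟨z, hz, by rwa [min_comm], by rwa [max_comm]⟩
    · exact key x (f.1 x) rfl hx h

/-- number of crystallized diagrams -/
theorem cryst_ge (p : ℕ) (hp : 4 ≤ p) (hn : 4 * p + 2 ≤ n) :
    (Fintype.card (Diag n) : ℝ) ≤
      (2 * n : ℝ) ^ (2 * n / p + 1) * ((2 * n + 1) * Real.exp (4 * p)) *
        cnt (fun f : Diag n => Crystallized f) := by
  classical
  have hnr : (1 : ℝ) ≤ n := by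
    have : 1 ≤ n := by omega
    exact_mod_cast this
  have h1 := A0_ge n p (by omega)
  have h2 : cnt (Pat (A0 n p)) ≤
      (2 * n + 1) * Real.exp (4 * p) * (NJ (A0 n p) (fun x => x.val / p) 0).card := by
    apply pat_total
    · omega
    · intro w
      have h3 : ((UU (A0 n p)).filter (fun x => x.val / p = w)).card ≤
          (Ico (p * w) (p * w + p)).card := by
        apply card_le_card_of_injOn (fun x => x.val)
        · intro x hx
          rw [coe_filter, Set.mem_ofPred_eq] at hx
          rw [mem_coe, mem_Ico, ← hx.2]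
          refine ⟨Nat.mul_div_le _ _, ?_⟩
          have := Nat.lt_mul_div_succ x.val (by omega : 0 < p)
          rw [Nat.mul_add, mul_one] at this
          exact this
        · intro x _ x' _ h
          exact Fin.ext h
      rwa [Nat.card_Ico, Nat.add_sub_cancel_left] at h3
    · have h4 := VS_card (A0 n p)
      have h5 := A0_card n p (by omega)
      have h6 : (UU (A0 n p)).card = 2 * n - (VS (A0 n p)).card := by
        unfold UU
        rw [card_sdiff_of_subset (subset_univ _), card_univ, Fintype.card_fin]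
      have h7 : 2 * n / p ≤ 2 * n / 4 := Nat.div_le_div_left hp (by norm_num)
      omega
  have h3 : ((NJ (A0 n p) (fun x => x.val / p) 0).card : ℝ) ≤
      cnt (fun f : Diag n => Crystallized f) := by
    unfold cnt
    rw [cntN_eq]
    have : (NJ (A0 n p) (fun x => x.val / p) 0).card ≤
        (univ.filter (fun f : Diag n => Crystallized f)).card := by
      apply card_le_card
      intro f hf
      unfold NJ at hf
      rw [mem_filter] at hf ⊢
      exact ⟨mem_univ _, zero_cryst p (by omega) f hf.2.1 hf.2.2⟩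
    exact_mod_cast this
  have h4 : (2 * n : ℝ) ^ (A0 n p).card ≤ (2 * n : ℝ) ^ (2 * n / p + 1) := by
    apply pow_le_pow_right₀ (by linarith) (A0_card n p (by omega))
  calc (Fintype.card (Diag n) : ℝ) ≤ (2 * n : ℝ) ^ (A0 n p).card * cnt (Pat (A0 n p)) := h1
    _ ≤ (2 * n : ℝ) ^ (2 * n / p + 1) * ((2 * n + 1) * Real.exp (4 * p) *
          (NJ (A0 n p) (fun x => x.val / p) 0).card) :=
        mul_le_mul h4 h2 (cnt_nonneg _) (by positivity)
    _ ≤ (2 * n : ℝ) ^ (2 * n / p + 1) * ((2 * n + 1) * Real.exp (4 * p) *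
          cnt (fun f : Diag n => Crystallized f)) := by
        apply mul_le_mul_of_nonneg_left _ (by positivity)
        exact mul_le_mul_of_nonneg_left h3 (by positivity)
    _ = _ := by ring

lemma PY_eq (s : Set ℕ) : PY n s = cnt (fun f : Diag n => Crystallized f ∧ numShort f ∈ s) /
    cnt (fun f : Diag n => Crystallized f) := by
  classical
  unfold PY cnt
  rw [cntN_eq, cntN_eq]

lemma PY_mono {s t : Set ℕ} (h : ∀ k ∈ s, k ∈ t) : PY n s ≤ PY n t := by
  rw [PY_eq, PY_eq]
  exact div_le_div_of_nonneg_right (cnt_mono fun f hf => ⟨hf.1, h _ hf.2⟩) (cnt_nonneg _)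

theorem PY_le (p K : ℕ) (hD : 0 < Fintype.card (Diag n)) (hp : 4 ≤ p) (hn : 4 * p + 2 ≤ n)
    (hK : 2 * K ≤ n) :
    PY n {k | K ≤ k} ≤ 2 ^ K / (Nat.factorial K : ℝ) *
      ((2 * n : ℝ) ^ (2 * n / p + 1) * ((2 * n + 1) * Real.exp (4 * p))) := by
  classical
  have hnr : (1 : ℝ) ≤ n := by
    have : 1 ≤ n := by omega
    exact_mod_cast this
  have hD' : (0 : ℝ) < Fintype.card (Diag n) := by exact_mod_cast hD
  have h1 := cryst_ge (n := n) p hp hn
  have h2 := many_short (n := n) K (by omega) hK
  set G : ℝ := (2 * n : ℝ) ^ (2 * n / p + 1) * ((2 * n + 1) * Real.exp (4 * p)) with hG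
  have hG0 : 0 < G := by rw [hG]; positivity
  have hC : 0 < cnt (fun f : Diag n => Crystallized f) := by
    by_contra hcon
    have h3 : cnt (fun f : Diag n => Crystallized f) ≤ 0 := not_lt.1 hcon
    have h4 := mul_nonpos_of_nonneg_of_nonpos hG0.le h3
    linarith
  rw [PY_eq, div_le_iff₀ hC]
  have h3 : cnt (fun f : Diag n => Crystallized f ∧ numShort f ∈ {k | K ≤ k}) ≤
      cnt (fun f : Diag n => K ≤ numShort f) := cnt_mono fun f hf => hf.2
  calc cnt (fun f : Diag n => Crystallized f ∧ numShort f ∈ {k | K ≤ k})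
      ≤ 2 ^ K / (Nat.factorial K : ℝ) * Fintype.card (Diag n) := h3.trans h2
    _ ≤ 2 ^ K / (Nat.factorial K : ℝ) * (G * cnt (fun f : Diag n => Crystallized f)) :=
        mul_le_mul_of_nonneg_left h1 (by positivity)
    _ = _ := by ring

end Pool.Agent.LibCryst
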