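import Pool.Agent.LibCryst.Lower
import Pool.Agent.LibCryst.YBound

set_option autoImplicit false

open Finset Filter

namespace Pool.Agent.LibCryst

/-- partner in the diagram with all chords short -/
def basef (n : ℕ) (x : Fin (2 * n)) : Fin (2 * n) :=
  if h : x.val % 2 = 0 then ⟨x.val + 1, by have := x.2; omega⟩
    else ⟨x.val - 1, by have := x.2; omega⟩

lemma basef_even (n : ℕ) (x : Fin (2 * n)) (h : x.val % 2 = 0) :
    (basef n x).val = x.val + 1 := by
  unfold basef; rw [dif_pos h]

lemma basef_odd (n : ℕ) (x : Fin (2 * n)) (h : ¬ x.val % 2 = 0) :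
    (basef n x).val = x.val - 1 := by
  unfold basef; rw [dif_neg h]

/-- the diagram with all chords short -/
def base (n : ℕ) : Diag n :=
  ⟨basef n, by
    intro x
    have := x.2
    constructor
    · intro h
      have h' := congrArg Fin.val h
      by_cases h2 : x.val % 2 = 0
      · rw [basef_even n x h2] at h'
        omega
      · rw [basef_odd n x h2] at h'
        omega
    · apply Fin.ext
      by_cases h : x.val % 2 = 0
      · rw [basef_odd n (basef n x) (by rw [basef_even n x h]; omega), basef_even n x h]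
        omega
      · rw [basef_even n (basef n x) (by rw [basef_odd n x h]; omega), basef_odd n x h]
        omega⟩

instance (n : ℕ) : Nonempty (Diag n) := ⟨base n⟩

lemma D_pos (n : ℕ) : 0 < Fintype.card (Diag n) := Fintype.card_pos

lemma tendsto_sqrt_nat : Tendsto (fun n : ℕ => Real.sqrt (n : ℝ)) atTop atTop :=
  Real.tendsto_sqrt_atTop.comp tendsto_natCast_atTop_atTop

/-- For every `ε > 0`, `Y_n < ε √n` with probability tending to one. -/
theorem PY_small (ε : ℝ) (hε : 0 < ε) :
    Tendsto (fun n : ℕ => PY n {k | ε * Real.sqrt (n : ℝ) ≤ (k : ℝ)}) atTop (nhds 0) := by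
  set C : ℝ := 16 / ε with hC
  have hC0 : 0 < C := by rw [hC]; positivity
  set c : ℝ := -ε * (Real.log ε - 1 - Real.log 2) + ε / 8 * Real.log 2 + 4 * C + 4 +
    (Real.log 2 + Real.log 3 + 4) + 1 with hc
  have hlog2 : 0 < Real.log 2 := Real.log_pos (by norm_num)
  have hlog3 : 0 < Real.log 3 := Real.log_pos (by norm_num)
  -- the eventual bound
  have hev : ∀ᶠ n : ℕ in atTop, PY n {k | ε * Real.sqrt (n : ℝ) ≤ (k : ℝ)} ≤
      Real.exp (-Real.sqrt (n : ℝ)) := by
    have h1 := tendsto_sqrt_nat.eventually_ge_atTop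
      (max (max 1 (4 / C)) (max (4 * C + 6) (2 * ε + 2)))
    have h2 := (Real.tendsto_log_atTop.comp tendsto_sqrt_nat).eventually_ge_atTop
      (max (1 + Real.log 2 - Real.log ε) (c / (3 * ε / 4)))
    filter_upwards [h1, h2] with n hn1 hn2
    set s : ℝ := Real.sqrt (n : ℝ) with hs
    simp only [Function.comp, ← hs] at hn2
    have g1 : 1 ≤ s := ((le_max_left _ _).trans (le_max_left _ _)).trans hn1
    have g2 : 4 / C ≤ s := ((le_max_right _ _).trans (le_max_left _ _)).trans hn1
    have g3 : 4 * C + 6 ≤ s := ((le_max_left _ _).trans (le_max_right _ _)).trans hn1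
    have g4 : 2 * ε + 2 ≤ s := ((le_max_right _ _).trans (le_max_right _ _)).trans hn1
    have g5 : 1 + Real.log 2 - Real.log ε ≤ Real.log s := (le_max_left _ _).trans hn2
    have g6 : c / (3 * ε / 4) ≤ Real.log s := (le_max_right _ _).trans hn2
    have hs0 : 0 < s := by linarith
    have hsn : s ^ 2 = n := Real.sq_sqrt (Nat.cast_nonneg n)
    set K : ℕ := ⌈ε * s⌉₊ with hK
    set p : ℕ := ⌈C * s⌉₊ with hp
    have hK1 : ε * s ≤ K := Nat.le_ceil _
    have hK2 : (K : ℝ) < ε * s + 1 := Nat.ceil_lt_add_one (by positivity)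
    have hp1 : C * s ≤ p := Nat.le_ceil _
    have hp2 : (p : ℝ) < C * s + 1 := Nat.ceil_lt_add_one (by positivity)
    have hp4 : 4 ≤ p := by
      have : (4 : ℝ) ≤ p := by
        rw [div_le_iff₀ hC0] at g2
        linarith
      exact_mod_cast this
    have hpn : 4 * p + 2 ≤ n := by
      have : (4 * p + 2 : ℝ) ≤ n := by
        rw [← hsn]
        nlinarith
      exact_mod_cast this
    have hKn : 2 * K ≤ n := by
      have : (2 * K : ℝ) ≤ n := by
        rw [← hsn]
        nlinarith
      exact_mod_cast this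
    have hmain := PY_le (n := n) p K (D_pos n) hp4 hpn hKn
    have hle : PY n {k | ε * s ≤ (k : ℝ)} ≤ PY n {k | K ≤ k} := by
      apply PY_mono
      intro k hk
      exact Nat.ceil_le.2 hk
    refine hle.trans (hmain.trans ?_)
    have hnpos : (0 : ℝ) < n := by rw [← hsn]; positivity
    have hlogn : Real.log (2 * n) = Real.log 2 + 2 * Real.log s := by
      rw [← hsn, Real.log_mul (by norm_num) (by positivity), Real.log_pow]
      push_cast
      ring
    have hlogs : 0 ≤ Real.log s := Real.log_nonneg g1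
    -- factor 1
    have hKpos : (0 : ℝ) < K := lt_of_lt_of_le (by positivity) hK1
    have f1 : (2 : ℝ) ^ K / (Nat.factorial K : ℝ) ≤
        Real.exp (-(ε * s) * (Real.log ε + Real.log s - 1 - Real.log 2)) := by
      have h3 : (K : ℝ) ^ K / (Nat.factorial K : ℝ) ≤ Real.exp K :=
        Real.pow_div_factorial_le_exp (K : ℝ) hKpos.le K
      have h4 : (2 : ℝ) ^ K / (Nat.factorial K : ℝ) ≤ Real.exp K * 2 ^ K / (K : ℝ) ^ K := by
        rw [le_div_iff₀ (by positivity)]
        calc (2 : ℝ) ^ K / (Nat.factorial K : ℝ) * (K : ℝ) ^ K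
            = (K : ℝ) ^ K / (Nat.factorial K : ℝ) * 2 ^ K := by ring
          _ ≤ Real.exp K * 2 ^ K := mul_le_mul_of_nonneg_right h3 (by positivity)
      have h5 : Real.exp K * 2 ^ K / (K : ℝ) ^ K =
          Real.exp (-(K : ℝ) * (Real.log K - 1 - Real.log 2)) := by
        have e1 : (2 : ℝ) ^ K = Real.exp (K * Real.log 2) := by
          rw [Real.exp_nat_mul, Real.exp_log (by norm_num)]
        have e2 : (K : ℝ) ^ K = Real.exp (K * Real.log K) := by
          rw [Real.exp_nat_mul, Real.exp_log hKpos]
        rw [e1, e2, ← Real.exp_add, ← Real.exp_sub]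
        congr 1
        ring
      refine h4.trans (h5.le.trans (Real.exp_le_exp.2 ?_))
      have h6 : Real.log ε + Real.log s ≤ Real.log K := by
        rw [← Real.log_mul hε.ne' hs0.ne']
        exact Real.log_le_log (by positivity) hK1
      have h7 : 0 ≤ Real.log ε + Real.log s - 1 - Real.log 2 := by linarith
      have h8 : ε * s * (Real.log ε + Real.log s - 1 - Real.log 2) ≤
          K * (Real.log K - 1 - Real.log 2) := by
        apply mul_le_mul hK1 (by linarith) h7 hKpos.le
      linarith
    -- factor 2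
    have f2 : (2 * n : ℝ) ^ (2 * n / p + 1) ≤
        Real.exp ((ε / 8 * s + 1) * (Real.log 2 + 2 * Real.log s)) := by
      have e1 : (2 * n : ℝ) ^ (2 * n / p + 1) =
          Real.exp (((2 * n / p + 1 : ℕ) : ℝ) * Real.log (2 * n)) := by
        rw [Real.exp_nat_mul, Real.exp_log (by positivity)]
      rw [e1, hlogn]
      apply Real.exp_le_exp.2
      apply mul_le_mul_of_nonneg_right _ (by positivity)
      have h3 : ((2 * n / p : ℕ) : ℝ) ≤ (2 * n : ℝ) / p := by
        have := Nat.cast_div_le (α := ℝ) (m := 2 * n) (n := p)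
        push_cast at this
        exact this
      have hp0 : (0 : ℝ) < p := lt_of_lt_of_le (by positivity) hp1
      have h4 : (2 * n : ℝ) / p ≤ ε / 8 * s := by
        rw [div_le_iff₀ hp0, ← hsn]
        have h5 : ε / 8 * s * (C * s) ≤ ε / 8 * s * p :=
          mul_le_mul_of_nonneg_left hp1 (by positivity)
        have h6 : ε / 8 * s * (C * s) = 2 * s ^ 2 := by
          rw [hC]
          field_simp
          ring
        linarith
      push_cast
      linarith
    -- factor 3
    have f3 : (2 * n + 1 : ℝ) ≤ Real.exp (Real.log 3 + 2 * Real.log s) := by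
      have h3 : Real.exp (Real.log 3 + 2 * Real.log s) = 3 * s ^ 2 := by
        rw [Real.exp_add, Real.exp_log (by norm_num)]
        congr 1
        have h4 : 2 * Real.log s = Real.log (s ^ 2) := by
          rw [Real.log_pow]
          push_cast
          ring
        rw [h4, Real.exp_log (by positivity)]
      rw [h3, hsn]
      have : (1 : ℝ) ≤ n := by rw [← hsn]; nlinarith
      linarith
    have f4 : Real.exp (4 * p) ≤ Real.exp (4 * (C * s + 1)) :=
      Real.exp_le_exp.2 (by linarith)
    calc (2 : ℝ) ^ K / (Nat.factorial K : ℝ) *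
          ((2 * n : ℝ) ^ (2 * n / p + 1) * ((2 * n + 1) * Real.exp (4 * p)))
        ≤ Real.exp (-(ε * s) * (Real.log ε + Real.log s - 1 - Real.log 2)) *
          (Real.exp ((ε / 8 * s + 1) * (Real.log 2 + 2 * Real.log s)) *
            (Real.exp (Real.log 3 + 2 * Real.log s) * Real.exp (4 * (C * s + 1)))) := by
          apply mul_le_mul f1 _ (by positivity) (Real.exp_pos _).le
          apply mul_le_mul f2 _ (by positivity) (Real.exp_pos _).le
          exact mul_le_mul f3 f4 (Real.exp_pos _).le (Real.exp_pos _).le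
      _ = Real.exp (-(ε * s) * (Real.log ε + Real.log s - 1 - Real.log 2) +
            ((ε / 8 * s + 1) * (Real.log 2 + 2 * Real.log s) +
              ((Real.log 3 + 2 * Real.log s) + 4 * (C * s + 1)))) := by
          rw [← Real.exp_add, ← Real.exp_add, ← Real.exp_add]
      _ ≤ Real.exp (-s) := by
          apply Real.exp_le_exp.2
          have h3 : Real.log s ≤ s := (Real.log_le_sub_one_of_pos hs0).trans (by linarith)
          rw [div_le_iff₀ (by positivity)] at g6
          have h4 : s * c ≤ s * (Real.log s * (3 * ε / 4)) := mul_le_mul_of_nonneg_left g6 hs0.le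
          have h5 : Real.log 2 + Real.log 3 + 4 ≤ s * (Real.log 2 + Real.log 3 + 4) := by
            nlinarith
          have h6 : s * c = s * (-ε * (Real.log ε - 1 - Real.log 2) + ε / 8 * Real.log 2 +
            4 * C + 4) + s * (Real.log 2 + Real.log 3 + 4) + s := by
            rw [hc]; ring
          nlinarith
  have hexp : Tendsto (fun n : ℕ => Real.exp (-Real.sqrt (n : ℝ))) atTop (nhds 0) :=
    Real.tendsto_exp_neg_atTop_nhds_zero.comp tendsto_sqrt_nat
  apply tendsto_of_tendsto_of_tendsto_of_le_of_le' tendsto_const_nhds hexp _ hev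
  apply Eventually.of_forall
  intro n
  rw [PY_eq]
  exact div_nonneg (cnt_nonneg _) (cnt_nonneg _)

lemma PX_mono {n : ℕ} {s t : Set ℕ} (h : ∀ k ∈ s, k ∈ t) : PX n s ≤ PX n t := by
  rw [PX_eq, PX_eq]
  apply sum_le_sum
  intro f _
  apply mul_le_mul_of_nonneg_left _ (law_nonneg 0 f)
  apply ciSup_mono (hlim_bdd t f)
  intro r
  show Kit (ind n s) r f ≤ Kit (ind n t) r f
  have : ∀ r, ∀ f : Diag n, Kit (ind n s) r f ≤ Kit (ind n t) r f := by
    intro r
    induction r with
    | zero =>
      intro f
      rw [Kit_zero, Kit_zero]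
      unfold ind
      by_cases h1 : Crystallized f ∧ numShort f ∈ s
      · rw [if_pos h1, if_pos ⟨h1.1, h _ h1.2⟩]
      · rw [if_neg h1]
        split_ifs <;> norm_num
    | succ r ih =>
      intro f
      rw [Kit_succ, Kit_succ]
      exact Kop_mono ih f
  exact this r f

/-- `X_n ≥ √n / 30000` with probability at least `1/384`. -/
theorem PX_large : ∀ᶠ n : ℕ in atTop,
    1 / 384 ≤ PX n {k | 1 / 30000 * Real.sqrt (n : ℝ) ≤ (k : ℝ)} := by
  have h1 := tendsto_sqrt_nat.eventually_ge_atTop 100000
  filter_upwards [h1] with n hn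
  set s : ℝ := Real.sqrt (n : ℝ) with hs
  have hsn : s ^ 2 = n := Real.sq_sqrt (Nat.cast_nonneg n)
  set L : ℕ := ⌊s⌋₊ with hL
  have hL1 : (L : ℝ) ≤ s := Nat.floor_le (by linarith)
  have hL2 : s < L + 1 := Nat.lt_floor_add_one s
  have hLbig : (99999 : ℝ) ≤ L := by linarith
  have hLn : L ^ 2 ≤ n := by
    have : (L : ℝ) ^ 2 ≤ n := by
      rw [← hsn]
      exact pow_le_pow_left₀ (by positivity) hL1 2
    exact_mod_cast this
  have hL1' : 1 ≤ L := by
    have : (1 : ℝ) ≤ L := by linarith
    exact_mod_cast this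
  have hbig : 33 * L + 2 ≤ n := by
    have : (33 * L + 2 : ℝ) ≤ n := by
      rw [← hsn]
      nlinarith
    exact_mod_cast this
  have h2 := PX_lower n L (L / 13824) (D_pos n) hL1' hLn hbig (by omega)
  refine h2.trans (PX_mono ?_)
  intro k hk
  have h3 : L / 13824 ≤ k := hk
  show 1 / 30000 * s ≤ (k : ℝ)
  have h4 : L < 13824 * (k + 1) := by omega
  have h5 : (L : ℝ) < 13824 * (k + 1) := by exact_mod_cast h4
  linarith

lemma gauss_lt_one (x : ℝ) : (ProbabilityTheory.gaussianReal 0 1).real (Set.Iic x) < 1 := by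
  have h1 : (ProbabilityTheory.gaussianReal 0 1).real (Set.Iic x) =
      1 - (ProbabilityTheory.gaussianReal 0 1).real (Set.Ioi x) := by
    have := MeasureTheory.probReal_compl_eq_one_sub (μ := ProbabilityTheory.gaussianReal 0 1)
      (s := Set.Ioi x) measurableSet_Ioi
    rw [Set.compl_Ioi] at this
    exact this
  rw [h1]
  have h2 : 0 < (ProbabilityTheory.gaussianReal 0 1).real (Set.Ioi x) := by
    rw [MeasureTheory.measureReal_def, ENNReal.toReal_pos_iff]
    refine ⟨?_, MeasureTheory.measure_lt_top _ _⟩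
    rw [pos_iff_ne_zero]
    intro h0
    have h3 := ProbabilityTheory.gaussianReal_absolutelyContinuous' 0 (v := 1) one_ne_zero h0
    simp at h3
  linarith

lemma gauss_tendsto : Tendsto (fun x : ℝ => (ProbabilityTheory.gaussianReal 0 1).real (Set.Iic x))
    atTop (nhds 1) := by
  have h := ProbabilityTheory.tendsto_cdf_atTop (ProbabilityTheory.gaussianReal 0 1)
  have e : (fun x : ℝ => (ProbabilityTheory.gaussianReal 0 1).real (Set.Iic x)) =
      fun x => ProbabilityTheory.cdf (ProbabilityTheory.gaussianReal 0 1) x := by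
    funext x
    rw [ProbabilityTheory.cdf_eq_real]
  rw [e]
  exact h

lemma law_sum_le {n : ℕ} (s t : Set ℕ) (h : ∀ k, ¬ (k ∈ s ∧ k ∈ t)) : PX n s + PX n t ≤ 1 := by
  have h0 := PX_univ (n := n)
  rw [PX_eq] at h0
  rw [PX_eq, PX_eq, ← sum_add_distrib, ← h0]
  apply sum_le_sum
  intro f _
  rw [← mul_add]
  apply mul_le_mul_of_nonneg_left _ (law_nonneg 0 f)
  have h1 := (hlim_tendsto s f).add (hlim_tendsto t f)
  apply le_of_tendsto_of_tendsto' h1 (hlim_tendsto Set.univ f)
  intro r
  have : ∀ r, ∀ f : Diag n, Kit (ind n s) r f + Kit (ind n t) r f ≤ Kit (ind n Set.univ) r f := by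
    intro r
    induction r with
    | zero =>
      intro f
      rw [Kit_zero, Kit_zero, Kit_zero]
      unfold ind
      have := h (numShort f)
      by_cases h1 : Crystallized f
      · by_cases h2 : numShort f ∈ s
        · by_cases h3 : numShort f ∈ t
          · exact absurd ⟨h2, h3⟩ this
          · simp [h1, h2, h3]
        · by_cases h3 : numShort f ∈ t <;> simp [h1, h2, h3]
      · simp [h1]
    | succ r ih =>
      intro f
      rw [Kit_succ, Kit_succ, Kit_succ]
      have : Kop (Kit (ind n s) r) f + Kop (Kit (ind n t) r) f =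
          Kop (fun f => Kit (ind n s) r f + Kit (ind n t) r f) f := by
        unfold Kop
        rw [← sum_add_distrib]
        apply sum_congr rfl
        intro g _
        ring
      rw [this]
      exact Kop_mono ih f
  exact this r f

theorem main :
    (∀ n, PX n Set.univ = 1) ∧
    (∀ᶠ n : ℕ in atTop, 1 / 384 ≤ PX n {k | 1 / 30000 * Real.sqrt (n : ℝ) ≤ (k : ℝ)}) ∧
    (∀ ε : ℝ, 0 < ε →
      Tendsto (fun n : ℕ => PY n {k | ε * Real.sqrt (n : ℝ) ≤ (k : ℝ)}) atTop (nhds 0)) ∧
    (∀ a b : ℕ → ℝ, (∀ n, 0 < b n) → NormalLimit PY a b → ¬ NormalLimit PX a b) := by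
  refine ⟨fun n => PX_univ, PX_large, PY_small, ?_⟩
  intro a b hb hY hX
  -- choose x with large normal mass below
  obtain ⟨x, hx⟩ := (gauss_tendsto.eventually (lt_mem_nhds
    (show (1 : ℝ) - 1 / 768 < 1 by norm_num))).exists
  set Φ : ℝ := (ProbabilityTheory.gaussianReal 0 1).real (Set.Iic x) with hΦ
  have hΦ1 : Φ < 1 := gauss_lt_one x
  have h1 := (hX x).eventually (lt_mem_nhds (show Φ - 1 / 768 < Φ by linarith))
  have h2 := (hY x).eventually (gt_mem_nhds (show Φ < (1 + Φ) / 2 by linarith))
  have h3 := (PY_small (1 / 30000) (by norm_num)).eventually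
    (gt_mem_nhds (show (0 : ℝ) < (1 - Φ) / 2 by linarith))
  obtain ⟨n, g1, g2, g3, g4⟩ := (h1.and (h2.and (h3.and PX_large))).exists
  -- an integer in both sets
  have hex : ∃ k : ℕ, ((k : ℝ) - a n) / b n ≤ x ∧ 1 / 30000 * Real.sqrt (n : ℝ) ≤ (k : ℝ) := by
    by_contra hcon
    push Not at hcon
    have h5 := law_sum_le (n := n) {k : ℕ | ((k : ℝ) - a n) / b n ≤ x}
      {k : ℕ | 1 / 30000 * Real.sqrt (n : ℝ) ≤ (k : ℝ)} (by
        rintro k ⟨hk1, hk2⟩
        exact absurd hk2 (not_le.2 (hcon k hk1)))
    linarith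
  obtain ⟨k, hk1, hk2⟩ := hex
  -- then Y_n is below the threshold with high probability
  have h6 : 1 ≤ PY n {k | ((k : ℝ) - a n) / b n ≤ x} +
      PY n {k | 1 / 30000 * Real.sqrt (n : ℝ) ≤ (k : ℝ)} := by
    have hcover : ∀ j : ℕ, ((j : ℝ) - a n) / b n ≤ x ∨
        1 / 30000 * Real.sqrt (n : ℝ) ≤ (j : ℝ) := by
      intro j
      by_contra hcon
      push Not at hcon
      obtain ⟨h7, h8⟩ := hcon
      have h9 : (j : ℝ) < k := lt_of_lt_of_le h8 hk2
      have h10 : ((j : ℝ) - a n) / b n ≤ ((k : ℝ) - a n) / b n :=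
        div_le_div_of_nonneg_right (by linarith) (hb n).le
      linarith
    have hCp : 0 < cnt (fun f : Diag n => Crystallized f) := by
      have hne : Crystallized (base n) := by
        intro y
        left
        show (basef n y).val = y.val + 1 ∨ y.val = (basef n y).val + 1
        have := y.2
        by_cases h : y.val % 2 = 0
        · left; exact basef_even n y h
        · right
          rw [basef_odd n y h]
          omega
      unfold cnt cntN
      have : 0 < (@Finset.filter _ (fun f : Diag n => Crystallized f)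
          (fun a => Classical.propDecidable _) univ).card :=
        card_pos.2 ⟨base n, by simp [hne]⟩
      exact_mod_cast this
    rw [PY_eq, PY_eq, ← add_div, le_div_iff₀ hCp, one_mul]
    unfold cnt
    classical
    rw [cntN_eq, cntN_eq, cntN_eq]
    have : (univ.filter (fun f : Diag n => Crystallized f)).card ≤
        (univ.filter (fun f : Diag n => Crystallized f ∧
          numShort f ∈ {k : ℕ | ((k : ℝ) - a n) / b n ≤ x})).card +
        (univ.filter (fun f : Diag n => Crystallized f ∧
          numShort f ∈ {k : ℕ | 1 / 30000 * Real.sqrt (n : ℝ) ≤ (k : ℝ)})).card := by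
      refine le_trans (card_le_card ?_) (card_union_le _ _)
      intro f hf
      rw [mem_filter] at hf
      rw [mem_union, mem_filter, mem_filter]
      rcases hcover (numShort f) with h | h
      · exact Or.inl ⟨mem_univ _, hf.2, h⟩
      · exact Or.inr ⟨mem_univ _, hf.2, h⟩
    exact_mod_cast this
  linarith

end Pool.Agent.LibCryst
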