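import Pool.Agent.LibCryst.Basic

set_option autoImplicit false

open Finset

namespace Pool.Agent.LibCryst

variable {n : ℕ}

open Classical in
/-- number of diagrams with a property -/
noncomputable def cntN (φ : Diag n → Prop) : ℕ := (univ.filter (fun f : Diag n => φ f)).card

lemma cntN_eq (φ : Diag n → Prop) [DecidablePred φ] : cntN φ = (univ.filter φ).card := by
  unfold cntN
  congr

open Classical in
/-- counting by symmetry: the partner of a vertex outside `S` is uniform outside `S` -/
theorem ext_step (φ : Diag n → Prop) (S : Finset (Fin (2 * n)))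
    (hinv : ∀ f d d', d ∉ S → d' ∉ S → φ f → φ (swapD f d d'))
    (hS : ∀ f, φ f → ∀ x ∈ S, f.1 x ∈ S) (c d : Fin (2 * n)) (hc : c ∉ S) (hd : d ∉ S)
    (hcd : c ≠ d) :
    (2 * n - S.card - 1) * cntN (fun f : Diag n => φ f ∧ f.1 c = d) = cntN φ := by
  rw [cntN_eq (fun f : Diag n => φ f ∧ f.1 c = d), cntN_eq]
  set T := univ \ insert c S with hT
  have hTc : T.card = 2 * n - S.card - 1 := by
    rw [hT, card_sdiff_of_subset (subset_univ _), card_univ, Fintype.card_fin,
      card_insert_of_notMem hc]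
    omega
  have hTmem : ∀ e, e ∈ T ↔ e ≠ c ∧ e ∉ S := by
    intro e
    rw [hT, mem_sdiff, mem_insert, not_or]
    simp
  have hmap : ∀ e, e ≠ c → e ∉ S → ∀ e', e' ≠ c → e' ∉ S →
      (univ.filter (fun f : Diag n => φ f ∧ f.1 c = e)).card ≤
      (univ.filter (fun f : Diag n => φ f ∧ f.1 c = e')).card := by
    intro e he heS e' he' he'S
    apply card_le_card_of_injOn (fun f => swapD f e e')
    · intro f hf
      rw [coe_filter, Set.mem_ofPred_eq] at hf ⊢
      refine ⟨mem_univ _, hinv f e e' heS he'S hf.2.1, ?_⟩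
      rw [swapD_apply, Equiv.swap_apply_of_ne_of_ne he.symm he'.symm, hf.2.2,
        Equiv.swap_apply_left]
    · intro f _ g _ hfg
      have := congrArg (fun h => swapD h e e') hfg
      simp only [swapD_swapD] at this
      exact this
  have heq : ∀ e ∈ T, (univ.filter (fun f : Diag n => φ f ∧ f.1 c = e)).card =
      (univ.filter (fun f : Diag n => φ f ∧ f.1 c = d)).card := by
    intro e he
    rw [hTmem] at he
    exact le_antisymm (hmap e he.1 he.2 d hcd.symm hd) (hmap d hcd.symm hd e he.1 he.2)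
  have hsum : (univ.filter (fun f : Diag n => φ f)).card =
      ∑ e ∈ T, (univ.filter (fun f : Diag n => φ f ∧ f.1 c = e)).card := by
    rw [card_eq_sum_card_fiberwise (f := fun f : Diag n => f.1 c) (t := T)]
    · apply sum_congr rfl
      intro e _
      rw [filter_filter]
    · intro f hf
      rw [coe_filter, Set.mem_ofPred_eq] at hf
      rw [mem_coe, hTmem]
      refine ⟨dne f c, fun h => hc ?_⟩
      have := hS f hf.2 _ h
      rwa [dinv] at this
  rw [hsum, sum_congr rfl heq, sum_const, smul_eq_mul, hTc]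

/-- number of diagrams with a property, as a real number -/
noncomputable def cnt (φ : Diag n → Prop) : ℝ := (cntN φ : ℝ)

lemma cnt_nonneg (φ : Diag n → Prop) : 0 ≤ cnt φ := by
  unfold cnt; positivity

lemma cnt_mono {φ χ : Diag n → Prop} (h : ∀ f, φ f → χ f) : cnt φ ≤ cnt χ := by
  classical
  unfold cnt
  rw [cntN_eq, cntN_eq]
  have : (univ.filter (fun f : Diag n => φ f)).card ≤
      (univ.filter (fun f : Diag n => χ f)).card := by
    apply card_le_card
    intro f hf
    rw [mem_filter] at hf ⊢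
    exact ⟨hf.1, h f hf.2⟩
  exact_mod_cast this

lemma cnt_zero {φ : Diag n → Prop} (h : ∀ f, ¬ φ f) : cnt φ = 0 := by
  classical
  unfold cnt
  rw [cntN_eq]
  have : (univ.filter (fun f : Diag n => φ f)) = ∅ := by
    ext f
    simp [h f]
  rw [this]
  simp

theorem cnt_step (φ : Diag n → Prop) (S : Finset (Fin (2 * n)))
    (hinv : ∀ f d d', d ∉ S → d' ∉ S → φ f → φ (swapD f d d'))
    (hS : ∀ f, φ f → ∀ x ∈ S, f.1 x ∈ S) (c d : Fin (2 * n)) (hc : c ∉ S) (hd : d ∉ S)
    (hcd : c ≠ d) :
    (2 * n - S.card - 1 : ℝ) * cnt (fun f => φ f ∧ f.1 c = d) = cnt φ := by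
  classical
  have h := ext_step φ S hinv hS c d hc hd hcd
  have hcard : S.card + 2 ≤ 2 * n := by
    have h1 : (insert c (insert d S)).card ≤ 2 * n := by
      have := card_le_univ (insert c (insert d S))
      rwa [Fintype.card_fin] at this
    rw [card_insert_of_notMem (by rw [mem_insert, not_or]; exact ⟨hcd, hc⟩),
      card_insert_of_notMem hd] at h1
    omega
  unfold cnt
  have h2 : ((2 * n - S.card - 1 : ℕ) : ℝ) = 2 * n - S.card - 1 := by
    rw [Nat.cast_sub (by omega), Nat.cast_sub (by omega)]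
    push_cast
    ring
  rw [← h2]
  exact_mod_cast h

lemma cnt_one (a b : Fin (2 * n)) (hab : a ≠ b) :
    (2 * n - 1 : ℝ) * cnt (fun f : Diag n => f.1 a = b) = cnt (fun _ : Diag n => True) := by
  have h := cnt_step (n := n) (fun _ => True) ∅ (fun _ _ _ _ _ _ => trivial)
    (fun _ _ x hx => absurd hx (notMem_empty x)) a b (notMem_empty _) (notMem_empty _) hab
  simpa using h

lemma cnt_two (a b c d : Fin (2 * n)) (hab : a ≠ b) (hca : c ≠ a) (hcb : c ≠ b) (hda : d ≠ a)
    (hdb : d ≠ b) (hcd : c ≠ d) :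
    (2 * n - 1 : ℝ) * ((2 * n - 3) * cnt (fun f : Diag n => f.1 a = b ∧ f.1 c = d)) =
      cnt (fun _ : Diag n => True) := by
  have h := cnt_step (n := n) (fun f => f.1 a = b) {a, b} (by
      intro f e e' he he' hf
      simp only [mem_insert, mem_singleton, not_or] at he he'
      rw [swapD_apply, Equiv.swap_apply_of_ne_of_ne (Ne.symm he.1) (Ne.symm he'.1), hf,
        Equiv.swap_apply_of_ne_of_ne (Ne.symm he.2) (Ne.symm he'.2)]) (by
      intro f hf x hx
      simp only [mem_insert, mem_singleton] at hx ⊢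
      rcases hx with rfl | rfl
      · exact Or.inr hf
      · left
        rw [← hf, dinv]) c d (by simp [hca, hcb]) (by simp [hda, hdb]) hcd
  rw [card_pair hab] at h
  rw [← cnt_one a b hab, ← h]
  push_cast
  ring

/-- `a` is the left endpoint of a chord of length at most `L` -/
def sr (L : ℕ) (f : Diag n) (a : Fin (2 * n)) : Prop :=
  a.val < (f.1 a).val ∧ (f.1 a).val ≤ a.val + L

instance (L : ℕ) (f : Diag n) (a : Fin (2 * n)) : Decidable (sr L f a) := by
  unfold sr; infer_instance

/-- vertices at most `L` to the right -/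
def nxt (L : ℕ) (a : Fin (2 * n)) : Finset (Fin (2 * n)) :=
  univ.filter (fun b => a.val < b.val ∧ b.val ≤ a.val + L)

lemma nxt_card (L : ℕ) (a : Fin (2 * n)) : (nxt L a).card ≤ L := by
  have h : (nxt L a).card ≤ (Ioc a.val (a.val + L)).card := by
    apply card_le_card_of_injOn (fun b => b.val)
    · intro b hb
      unfold nxt at hb
      rw [coe_filter, Set.mem_ofPred_eq] at hb
      rw [mem_coe, mem_Ioc]
      exact hb.2
    · intro b _ b' _ h
      exact Fin.ext h
  rwa [Nat.card_Ioc, Nat.add_sub_cancel_left] at h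

lemma nxt_card_eq (L : ℕ) (a : Fin (2 * n)) (h : a.val + L < 2 * n) : (nxt L a).card = L := by
  apply le_antisymm (nxt_card L a)
  have h1 : (Ioc a.val (a.val + L)).card ≤ (nxt L a).card := by
    apply card_le_card_of_injOn (fun b => if hb : b < 2 * n then (⟨b, hb⟩ : Fin (2 * n)) else a)
    · intro b hb
      rw [mem_coe, mem_Ioc] at hb
      have hb2 : b < 2 * n := by omega
      simp only [hb2, dif_pos]
      unfold nxt
      rw [coe_filter, Set.mem_ofPred_eq]
      exact ⟨mem_univ _, hb.1, hb.2⟩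
    · intro b hb b' hb' h
      rw [mem_coe, mem_Ioc] at hb hb'
      have hb2 : b < 2 * n := by omega
      have hb2' : b' < 2 * n := by omega
      simp only [hb2, hb2', dif_pos, Fin.mk.injEq] at h
      exact h
  rwa [Nat.card_Ioc, Nat.add_sub_cancel_left] at h1

/-- expectation over the uniform diagram -/
noncomputable def EE (g : Diag n → ℝ) : ℝ := (1 / (Fintype.card (Diag n) : ℝ)) * ∑ f, g f

lemma EE_mono {g h : Diag n → ℝ} (H : ∀ f, g f ≤ h f) : EE g ≤ EE h := by
  unfold EE
  exact mul_le_mul_of_nonneg_left (sum_le_sum fun f _ => H f) (by positivity)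

lemma EE_add (g h : Diag n → ℝ) : EE (fun f => g f + h f) = EE g + EE h := by
  unfold EE
  rw [sum_add_distrib, mul_add]

lemma EE_smul (a : ℝ) (g : Diag n → ℝ) : EE (fun f => a * g f) = a * EE g := by
  unfold EE
  rw [← mul_sum]
  ring

lemma EE_sum {ι : Type} (s : Finset ι) (g : ι → Diag n → ℝ) :
    EE (fun f => ∑ i ∈ s, g i f) = ∑ i ∈ s, EE (g i) := by
  unfold EE
  rw [sum_comm, mul_sum]

lemma EE_ind (φ : Diag n → Prop) [DecidablePred φ] :
    EE (fun f => if φ f then 1 else 0) = cnt φ / (Fintype.card (Diag n) : ℝ) := by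
  unfold EE cnt
  rw [sum_boole, cntN_eq]
  ring

lemma cnt_true : cnt (fun _ : Diag n => True) = (Fintype.card (Diag n) : ℝ) := by
  classical
  unfold cnt
  rw [cntN_eq]
  simp

lemma EE_one (hD : 0 < Fintype.card (Diag n)) (hn : 1 ≤ n) (a b : Fin (2 * n)) (hab : a ≠ b) :
    EE (fun f : Diag n => if f.1 a = b then 1 else 0) = 1 / (2 * n - 1) := by
  classical
  have h := cnt_one a b hab
  rw [cnt_true] at h
  have hD' : (0 : ℝ) < Fintype.card (Diag n) := by exact_mod_cast hD
  have hn' : (0 : ℝ) < 2 * n - 1 := by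
    have : (1 : ℝ) ≤ n := by exact_mod_cast hn
    linarith
  rw [EE_ind (fun f : Diag n => f.1 a = b), ← h]
  have hc : cnt (fun f : Diag n => f.1 a = b) ≠ 0 := by
    intro h0
    rw [h0, mul_zero] at h
    exact hD'.ne h
  field_simp

lemma EE_sr_le (hD : 0 < Fintype.card (Diag n)) (hn : 1 ≤ n) (L : ℕ) (a : Fin (2 * n)) :
    EE (fun f : Diag n => if sr L f a then 1 else 0) ≤ L / (2 * n - 1) := by
  have hn' : (0 : ℝ) < 2 * n - 1 := by
    have : (1 : ℝ) ≤ n := by exact_mod_cast hn
    linarith
  have h1 : ∀ f : Diag n, (if sr L f a then (1 : ℝ) else 0) =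
      ∑ b ∈ nxt L a, (if f.1 a = b then 1 else 0) := by
    intro f
    rw [sum_ite_eq]
    congr 1
    unfold nxt sr
    rw [mem_filter]
    simp
  simp only [h1]
  rw [EE_sum]
  have h2 : ∀ b ∈ nxt L a, EE (fun f : Diag n => if f.1 a = b then (1 : ℝ) else 0) =
      1 / (2 * n - 1) := by
    intro b hb
    unfold nxt at hb
    rw [mem_filter] at hb
    apply EE_one hD hn
    intro e
    rw [e] at hb
    omega
  rw [sum_congr rfl h2, sum_const, nsmul_eq_mul, mul_one_div]
  apply div_le_div_of_nonneg_right _ hn'.le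
  exact_mod_cast nxt_card L a

lemma EE_two_le (hD : 0 < Fintype.card (Diag n)) (hn : 2 ≤ n) (L : ℕ) (a c : Fin (2 * n))
    (hac : a ≠ c) :
    EE (fun f : Diag n => if sr L f a ∧ sr L f c then 1 else 0) ≤
      L ^ 2 / ((2 * n - 1) * (2 * n - 3)) := by
  classical
  have hnr : (2 : ℝ) ≤ n := by exact_mod_cast hn
  have hn' : (0 : ℝ) < 2 * n - 1 := by linarith
  have hn3 : (0 : ℝ) < 2 * n - 3 := by linarith
  have hD' : (0 : ℝ) < Fintype.card (Diag n) := by exact_mod_cast hD
  have h1 : ∀ f : Diag n, (if sr L f a ∧ sr L f c then (1 : ℝ) else 0) =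
      ∑ b ∈ nxt L a, ∑ d ∈ nxt L c, (if f.1 a = b ∧ f.1 c = d then 1 else 0) := by
    intro f
    have e1 : ∀ b, (∑ d ∈ nxt L c, (if f.1 a = b ∧ f.1 c = d then (1 : ℝ) else 0)) =
        if f.1 a = b then (if sr L f c then 1 else 0) else 0 := by
      intro b
      by_cases hb : f.1 a = b
      · simp only [hb, true_and, if_true]
        rw [sum_ite_eq]
        congr 1
        unfold nxt sr
        rw [mem_filter]
        simp
      · simp [hb]
    simp only [e1]
    rw [sum_ite_eq]
    have e2 : f.1 a ∈ nxt L a ↔ sr L f a := by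
      unfold nxt sr
      rw [mem_filter]
      simp
    by_cases h1 : sr L f a
    · rw [if_pos (e2.2 h1)]
      simp [h1]
    · rw [if_neg (fun h => h1 (e2.1 h))]
      simp [h1]
  simp only [h1]
  rw [EE_sum]
  have h2 : ∀ b ∈ nxt L a, EE (fun f : Diag n =>
      ∑ d ∈ nxt L c, (if f.1 a = b ∧ f.1 c = d then (1 : ℝ) else 0)) ≤
      L * (1 / ((2 * n - 1) * (2 * n - 3))) := by
    intro b hb
    rw [EE_sum]
    have h3 : ∀ d ∈ nxt L c, EE (fun f : Diag n => if f.1 a = b ∧ f.1 c = d then (1 : ℝ) else 0) ≤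
        1 / ((2 * n - 1) * (2 * n - 3)) := by
      intro d hd
      unfold nxt at hb hd
      rw [mem_filter] at hb hd
      rw [EE_ind (fun f : Diag n => f.1 a = b ∧ f.1 c = d)]
      by_cases hdist : c ≠ b ∧ d ≠ a ∧ d ≠ b
      · have hab : a ≠ b := by
          intro e; rw [e] at hb; omega
        have hcd : c ≠ d := by
          intro e; rw [e] at hd; omega
        have h4 := cnt_two a b c d hab hac.symm hdist.1 hdist.2.1 hdist.2.2 hcd
        rw [cnt_true] at h4
        rw [div_le_div_iff₀ hD' (by positivity), ← h4]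
        apply le_of_eq
        ring
      · have h0 : cnt (fun f : Diag n => f.1 a = b ∧ f.1 c = d) = 0 := by
          apply cnt_zero
          rintro f ⟨hf1, hf2⟩
          apply hdist
          refine ⟨?_, ?_, ?_⟩
          · rintro rfl
            have : d = a := by rw [← hf2, ← hf1, dinv]
            rw [this] at hd
            omega
          · rintro rfl
            have : b = c := by rw [← hf1, ← hf2, dinv]
            rw [this] at hb
            omega
          · rintro rfl
            exact hac (dinj f (hf1.trans hf2.symm))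
        rw [h0, zero_div]
        positivity
    calc ∑ d ∈ nxt L c, EE (fun f : Diag n => if f.1 a = b ∧ f.1 c = d then (1 : ℝ) else 0)
        ≤ ∑ d ∈ nxt L c, 1 / ((2 * n - 1) * (2 * n - 3) : ℝ) := sum_le_sum h3
      _ = (nxt L c).card * (1 / ((2 * n - 1) * (2 * n - 3))) := by
          rw [sum_const, nsmul_eq_mul]
      _ ≤ L * (1 / ((2 * n - 1) * (2 * n - 3))) := by
          apply mul_le_mul_of_nonneg_right _ (by positivity)
          exact_mod_cast nxt_card L c
  calc ∑ b ∈ nxt L a, EE (fun f : Diag n =>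
      ∑ d ∈ nxt L c, (if f.1 a = b ∧ f.1 c = d then (1 : ℝ) else 0))
      ≤ ∑ b ∈ nxt L a, L * (1 / ((2 * n - 1) * (2 * n - 3) : ℝ)) := sum_le_sum h2
    _ = (nxt L a).card * (L * (1 / ((2 * n - 1) * (2 * n - 3)))) := by
        rw [sum_const, nsmul_eq_mul]
    _ ≤ L * (L * (1 / ((2 * n - 1) * (2 * n - 3)))) := by
        apply mul_le_mul_of_nonneg_right _ (by positivity)
        exact_mod_cast nxt_card L a
    _ = L ^ 2 / ((2 * n - 1) * (2 * n - 3)) := by ring

end Pool.Agent.LibCryst
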