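import Pool.Agent.LibCryst.Walk
import Pool.Agent.LibCryst.Moments

set_option autoImplicit false

open Finset Filter

namespace Pool.Agent.LibCryst

variable {n : ℕ}

/-- short endpoints -/
def Sh (f : Diag n) : Finset (Fin (2 * n)) := univ.filter (fun z => ShortV f z)

lemma Sh_card (f : Diag n) : (Sh f).card ≤ 2 * numShort f := by
  have h1 : Sh f ⊆ univ.filter (fun x : Fin (2 * n) => (f.1 x).val = x.val + 1) ∪
      (univ.filter (fun x : Fin (2 * n) => (f.1 x).val = x.val + 1)).image f.1 := by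
    intro z hz
    unfold Sh at hz
    rw [mem_filter] at hz
    rw [mem_union, mem_image]
    rcases hz.2 with h | h
    · left
      rw [mem_filter]
      exact ⟨mem_univ _, h⟩
    · right
      refine ⟨f.1 z, ?_, dinv f z⟩
      rw [mem_filter, dinv]
      exact ⟨mem_univ _, h⟩
  refine (card_le_card h1).trans ((card_union_le _ _).trans ?_)
  have := card_image_le (s := univ.filter (fun x : Fin (2 * n) => (f.1 x).val = x.val + 1))
    (f := f.1)
  unfold numShort
  omega

/-- left endpoints of chords of length at most `L` in block `w` -/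
def blk (L Bl : ℕ) (f : Diag n) (w : ℕ) : Finset (Fin (2 * n)) :=
  univ.filter (fun a => sr L f a ∧ a.val / Bl = w)

/-- the middle of the line -/
def Mid (n L B : ℕ) : Finset (Fin (2 * n)) :=
  univ.filter (fun a => B + 1 ≤ a.val ∧ a.val + L + B + 2 ≤ 2 * n)

open Classical in
/-- successful chords -/
noncomputable def Hs (L B : ℕ) (f : Diag n) (l : List (Ch n)) : Finset (Fin (2 * n)) :=
  (Mid n L B).filter (fun a => sr L f a ∧ Suc a.val (f.1 a).val B l a (f.1 a))

open Classical in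
theorem H_le (L B Bl : ℕ) (hBl : B + L ≤ Bl) (hBl1 : 1 ≤ Bl) (f : Diag n) (l : List (Ch n))
    (s1 : ℝ) (hs1 : 0 < s1) :
    ((Hs L B f l).card : ℝ) ≤ (s1 * (6 * numShort (run f l)) +
      (∑ w ∈ range (2 * n / Bl + 1), ((blk L Bl f w).card : ℝ) ^ 2) / s1) / 2 := by
  set g := run f l with hg
  set 𝒲 := (range (2 * n / Bl + 1)).filter (fun w => ∃ z, ShortV g z ∧ w ≤ z.val / Bl + 1 ∧
    z.val / Bl ≤ w + 1) with h𝒲
  have h1 : Hs L B f l ⊆ 𝒲.biUnion (fun w => blk L Bl f w) := by
    intro a ha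
    unfold Hs at ha
    rw [mem_filter] at ha
    obtain ⟨_, hsr, hsuc⟩ := ha
    obtain ⟨z, hz, hz1, hz2⟩ := suc_wall a.val (f.1 a).val B hsr.1.le l f a (f.1 a) rfl hsuc
    rw [mem_biUnion]
    refine ⟨a.val / Bl, ?_, ?_⟩
    · rw [h𝒲, mem_filter, mem_range]
      refine ⟨?_, z, hz, ?_, ?_⟩
      · have := Nat.div_le_div_right (c := Bl) a.2.le
        omega
      · have h3 : a.val ≤ z.val + Bl := by omega
        have := Nat.div_le_div_right (c := Bl) h3
        rwa [Nat.add_div_right _ (by omega)] at this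
      · have h3 : z.val ≤ a.val + Bl := by
          have := hsr.2
          omega
        have := Nat.div_le_div_right (c := Bl) h3
        rwa [Nat.add_div_right _ (by omega)] at this
    · unfold blk
      rw [mem_filter]
      exact ⟨mem_univ _, hsr, rfl⟩
  have h2 : (Hs L B f l).card ≤ ∑ w ∈ 𝒲, (blk L Bl f w).card :=
    (card_le_card h1).trans card_biUnion_le
  have h3 : 𝒲.card ≤ 6 * numShort g := by
    have h4 : 𝒲 ⊆ ((Sh g).image (fun z => z.val / Bl) ∪ (Sh g).image (fun z => z.val / Bl + 1)) ∪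
        (Sh g).image (fun z => z.val / Bl - 1) := by
      intro w hw
      rw [h𝒲, mem_filter] at hw
      obtain ⟨_, z, hz, hw1, hw2⟩ := hw
      have hz' : z ∈ Sh g := by
        unfold Sh
        rw [mem_filter]
        exact ⟨mem_univ _, hz⟩
      rw [mem_union, mem_union, mem_image, mem_image, mem_image]
      have hc : w = z.val / Bl ∨ w = z.val / Bl + 1 ∨ w = z.val / Bl - 1 := by omega
      rcases hc with h | h | h
      · exact Or.inl (Or.inl ⟨z, hz', h.symm⟩)
      · exact Or.inl (Or.inr ⟨z, hz', h.symm⟩)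
      · exact Or.inr ⟨z, hz', h.symm⟩
    have h5 := card_le_card h4
    have h6 := card_union_le ((Sh g).image (fun z => z.val / Bl) ∪
      (Sh g).image (fun z => z.val / Bl + 1)) ((Sh g).image (fun z => z.val / Bl - 1))
    have h7 := card_union_le ((Sh g).image (fun z => z.val / Bl))
      ((Sh g).image (fun z => z.val / Bl + 1))
    have h8 := card_image_le (s := Sh g) (f := fun z => z.val / Bl)
    have h9 := card_image_le (s := Sh g) (f := fun z => z.val / Bl + 1)
    have h10 := card_image_le (s := Sh g) (f := fun z => z.val / Bl - 1)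
    have h11 := Sh_card g
    omega
  have h2' : ((Hs L B f l).card : ℝ) ≤ ∑ w ∈ 𝒲, ((blk L Bl f w).card : ℝ) := by
    exact_mod_cast h2
  refine h2'.trans ?_
  have h12 : ∀ w ∈ 𝒲, ((blk L Bl f w).card : ℝ) ≤
      (s1 + ((blk L Bl f w).card : ℝ) ^ 2 / s1) / 2 := by
    intro w _
    set u := ((blk L Bl f w).card : ℝ)
    rw [le_div_iff₀ (by norm_num), ← sub_nonneg]
    have : s1 + u ^ 2 / s1 - u * 2 = (s1 - u) ^ 2 / s1 := by
      field_simp
      ring
    rw [this]
    positivity
  refine (sum_le_sum h12).trans ?_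
  rw [← sum_div, sum_add_distrib, sum_const, nsmul_eq_mul, ← sum_div]
  apply div_le_div_of_nonneg_right _ (by norm_num)
  apply add_le_add
  · rw [mul_comm]
    apply mul_le_mul_of_nonneg_left _ hs1.le
    exact_mod_cast h3
  · apply div_le_div_of_nonneg_right _ hs1.le
    apply sum_le_sum_of_subset_of_nonneg (filter_subset _ _)
    intro w _ _
    positivity

/-- number of left endpoints of chords of length at most `L` -/
def Ns (L : ℕ) (f : Diag n) : ℕ := (univ.filter (fun a : Fin (2 * n) => sr L f a)).card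

lemma H_le_N (L B : ℕ) (f : Diag n) (l : List (Ch n)) : (Hs L B f l).card ≤ Ns L f := by
  classical
  apply card_le_card
  intro a ha
  unfold Hs at ha
  exact mem_filter.2 ⟨mem_univ _, (mem_filter.1 ha).2.1⟩

/-- square of a cardinality as a double sum -/
lemma card_sq (p : Fin (2 * n) → Prop) [DecidablePred p] :
    ((univ.filter p).card : ℝ) ^ 2 = ∑ a, ∑ c, (if p a ∧ p c then (1 : ℝ) else 0) := by
  rw [← sum_boole, pow_two, sum_mul_sum]
  apply sum_congr rfl
  intro a _
  apply sum_congr rfl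
  intro c _
  by_cases h1 : p a <;> by_cases h2 : p c <;> simp [h1, h2]

lemma EE_pair (hD : 0 < Fintype.card (Diag n)) (hn : 2 ≤ n) (L : ℕ) (a c : Fin (2 * n)) :
    EE (fun f : Diag n => if sr L f a ∧ sr L f c then 1 else 0) ≤
      (L : ℝ) ^ 2 / ((2 * n - 1) * (2 * n - 3)) + if a = c then (L : ℝ) / (2 * n - 1) else 0 := by
  have hnr : (2 : ℝ) ≤ n := by exact_mod_cast hn
  have hn' : (0 : ℝ) < 2 * n - 1 := by linarith
  have hn3 : (0 : ℝ) < 2 * n - 3 := by linarith
  by_cases h : a = c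
  · subst h
    simp only [and_self, if_true]
    have := EE_sr_le hD (by omega) L a
    have h2 : (0 : ℝ) ≤ L ^ 2 / ((2 * n - 1) * (2 * n - 3)) := by positivity
    linarith
  · rw [if_neg h, add_zero]
    exact EE_two_le hD hn L a c h

lemma EE_N (hD : 0 < Fintype.card (Diag n)) (hn : 3 ≤ n) (L : ℕ) (hL : 1 ≤ L) :
    EE (fun f : Diag n => (Ns L f : ℝ) ^ 2) ≤ 6 * (L : ℝ) ^ 2 := by
  have hnr : (3 : ℝ) ≤ n := by exact_mod_cast hn
  have hn' : (0 : ℝ) < 2 * n - 1 := by linarith
  have hn3 : (0 : ℝ) < 2 * n - 3 := by linarith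
  have hLr : (1 : ℝ) ≤ L := by exact_mod_cast hL
  have h1 : ∀ f : Diag n, (Ns L f : ℝ) ^ 2 =
      ∑ a, ∑ c, (if sr L f a ∧ sr L f c then (1 : ℝ) else 0) := fun f => card_sq _
  simp only [h1]
  rw [EE_sum]
  have h2 : ∀ a : Fin (2 * n), EE (fun f : Diag n =>
      ∑ c, (if sr L f a ∧ sr L f c then (1 : ℝ) else 0)) ≤
      2 * n * (L ^ 2 / ((2 * n - 1) * (2 * n - 3))) + L / (2 * n - 1) := by
    intro a
    rw [EE_sum]
    refine (sum_le_sum fun c _ => EE_pair hD (by omega) L a c).trans ?_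
    rw [sum_add_distrib, sum_const, card_univ, Fintype.card_fin, nsmul_eq_mul, sum_ite_eq]
    simp
  refine (sum_le_sum fun a _ => h2 a).trans ?_
  rw [sum_const, card_univ, Fintype.card_fin, nsmul_eq_mul]
  push_cast
  have h3 : 2 * (n : ℝ) * (L / (2 * n - 1)) ≤ 2 * L := by
    rw [← mul_div_assoc, div_le_iff₀ hn']
    nlinarith
  have h4 : 2 * (n : ℝ) * (2 * n * (L ^ 2 / ((2 * n - 1) * (2 * n - 3)))) ≤ 4 * L ^ 2 := by
    have : 2 * (n : ℝ) * (2 * n * (L ^ 2 / ((2 * n - 1) * (2 * n - 3)))) =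
        (4 * n ^ 2 * L ^ 2) / ((2 * n - 1) * (2 * n - 3)) := by ring
    rw [this, div_le_iff₀ (by positivity)]
    have h5 : (n : ℝ) ^ 2 ≤ (2 * n - 1) * (2 * n - 3) := by nlinarith
    have h6 : (0 : ℝ) ≤ 4 * L ^ 2 := by positivity
    nlinarith [mul_le_mul_of_nonneg_left h5 h6]
  nlinarith

lemma EE_S (hD : 0 < Fintype.card (Diag n)) (hn : 3 ≤ n) (L Bl : ℕ) (hBl : 1 ≤ Bl)
    (hL : (L : ℝ) ^ 2 ≤ n) :
    EE (fun f : Diag n => ∑ w ∈ range (2 * n / Bl + 1), ((blk L Bl f w).card : ℝ) ^ 2) ≤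
      2 * L + 2 * Bl := by
  have hnr : (3 : ℝ) ≤ n := by exact_mod_cast hn
  have hn' : (0 : ℝ) < 2 * n - 1 := by linarith
  have hn3 : (0 : ℝ) < 2 * n - 3 := by linarith
  have hB0 : 0 < Bl := hBl
  have h1 : ∀ f : Diag n, ∑ w ∈ range (2 * n / Bl + 1), ((blk L Bl f w).card : ℝ) ^ 2 ≤
      ∑ a, ∑ c, (if a.val / Bl = c.val / Bl then
        (if sr L f a ∧ sr L f c then (1 : ℝ) else 0) else 0) := by
    intro f
    have e : ∀ w, ((blk L Bl f w).card : ℝ) ^ 2 =
        ∑ a, ∑ c, (if (sr L f a ∧ a.val / Bl = w) ∧ (sr L f c ∧ c.val / Bl = w) then (1 : ℝ)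
          else 0) := fun w => card_sq _
    simp only [e]
    rw [sum_comm]
    apply sum_le_sum
    intro a _
    rw [sum_comm]
    apply sum_le_sum
    intro c _
    have e2 : ∀ w, (if (sr L f a ∧ a.val / Bl = w) ∧ (sr L f c ∧ c.val / Bl = w) then (1 : ℝ)
        else 0) = if a.val / Bl = w then (if a.val / Bl = c.val / Bl then
          (if sr L f a ∧ sr L f c then (1 : ℝ) else 0) else 0) else 0 := by
      intro w
      by_cases h1 : a.val / Bl = w
      · subst h1
        by_cases h2 : a.val / Bl = c.val / Bl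
        · simp [h2]
        · simp only [if_true, h2, if_false]
          rw [if_neg]
          rintro ⟨_, _, h⟩
          exact h2 h.symm
      · rw [if_neg h1, if_neg]
        rintro ⟨⟨_, h⟩, _⟩
        exact h1 h
    simp only [e2]
    rw [sum_ite_eq]
    split_ifs <;> norm_num
  refine (EE_mono h1).trans ?_
  rw [EE_sum]
  have h2 : ∀ a : Fin (2 * n), EE (fun f : Diag n =>
      ∑ c, (if a.val / Bl = c.val / Bl then
        (if sr L f a ∧ sr L f c then (1 : ℝ) else 0) else 0)) ≤
      Bl * (L ^ 2 / ((2 * n - 1) * (2 * n - 3))) + L / (2 * n - 1) := by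
    intro a
    rw [EE_sum]
    have h3 : ∀ c : Fin (2 * n), EE (fun f : Diag n => (if a.val / Bl = c.val / Bl then
        (if sr L f a ∧ sr L f c then (1 : ℝ) else 0) else 0)) ≤
        (if a.val / Bl = c.val / Bl then (L : ℝ) ^ 2 / ((2 * n - 1) * (2 * n - 3)) else 0) +
          if a = c then (L : ℝ) / (2 * n - 1) else 0 := by
      intro c
      by_cases h : a.val / Bl = c.val / Bl
      · simp only [h, if_true]
        exact EE_pair hD (by omega) L a c
      · simp only [h, if_false]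
        have : a ≠ c := by
          rintro rfl
          exact h rfl
        rw [if_neg this]
        unfold EE
        simp
    refine (sum_le_sum fun c _ => h3 c).trans ?_
    rw [sum_add_distrib, sum_ite_eq, ← sum_filter, sum_const, nsmul_eq_mul]
    simp only [mem_univ, if_true]
    apply add_le_add_left
    apply mul_le_mul_of_nonneg_right _ (by positivity)
    have h4 : (univ.filter (fun c : Fin (2 * n) => a.val / Bl = c.val / Bl)).card ≤
        (Ico (Bl * (a.val / Bl)) (Bl * (a.val / Bl) + Bl)).card := by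
      apply card_le_card_of_injOn (fun c => c.val)
      · intro c hc
        rw [coe_filter, Set.mem_ofPred_eq] at hc
        rw [mem_coe, mem_Ico, hc.2]
        refine ⟨Nat.mul_div_le _ _, ?_⟩
        have := Nat.lt_mul_div_succ c.val hB0
        rw [Nat.mul_add, mul_one] at this
        exact this
      · intro c _ c' _ h
        exact Fin.ext h
    rw [Nat.card_Ico, Nat.add_sub_cancel_left] at h4
    exact_mod_cast h4
  refine (sum_le_sum fun a _ => h2 a).trans ?_
  rw [sum_const, card_univ, Fintype.card_fin, nsmul_eq_mul]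
  push_cast
  have h3 : 2 * (n : ℝ) * (L / (2 * n - 1)) ≤ 2 * L := by
    rw [← mul_div_assoc, div_le_iff₀ hn']
    have : (0 : ℝ) ≤ L := by positivity
    nlinarith
  have h4 : 2 * (n : ℝ) * (Bl * (L ^ 2 / ((2 * n - 1) * (2 * n - 3)))) ≤ 2 * Bl := by
    have : 2 * (n : ℝ) * (Bl * (L ^ 2 / ((2 * n - 1) * (2 * n - 3)))) =
        (2 * Bl * (n * L ^ 2)) / ((2 * n - 1) * (2 * n - 3)) := by ring
    rw [this, div_le_iff₀ (by positivity)]
    have h5 : (n : ℝ) * L ^ 2 ≤ (2 * n - 1) * (2 * n - 3) := by nlinarith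
    have h6 : (0 : ℝ) ≤ 2 * Bl := by positivity
    nlinarith [mul_le_mul_of_nonneg_left h5 h6]
  nlinarith

lemma Fp_half (a b L : ℕ) (hn : 1 ≤ n) (hL : 1 ≤ L) (hab : a < b) (hb : b ≤ a + L) :
    1 / 2 ≤ Fp n a b (16 * L) (4 * L) (16 * L ^ 2 * n) (16 * L ^ 2 * n) a b := by
  have hLr : (1 : ℝ) ≤ L := by exact_mod_cast hL
  have hnr : (1 : ℝ) ≤ n := by exact_mod_cast hn
  have h1 : (1 : ℝ) ≤ (b : ℝ) - a := by
    have : (a : ℝ) + 1 ≤ b := by exact_mod_cast hab
    linarith
  have h2 : (b : ℝ) - a ≤ L := by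
    have : (b : ℝ) ≤ a + L := by exact_mod_cast hb
    linarith
  unfold Fp
  push_cast
  set D : ℝ := (b : ℝ) - a with hD
  have t1 : (D - 1) / (4 * (L : ℝ) - 1) ≤ 1 / 4 := by
    rw [div_le_div_iff₀ (by linarith) (by norm_num)]
    linarith
  have t2 : (((a : ℝ) - a) ^ 2 + ((b : ℝ) - b) ^ 2 + 2 / (n : ℝ) * (16 * (L : ℝ) ^ 2 * n)) /
      (16 * (L : ℝ)) ^ 2 = 1 / 8 := by
    rw [sub_self, sub_self]
    field_simp
    ring
  have t3 : (16 * (L : ℝ) ^ 2 * n - 16 * (L : ℝ) ^ 2 * n + (D - 1) * (4 * (L : ℝ) - D) *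
      ((n : ℝ) / 2)) / (16 * (L : ℝ) ^ 2 * n) ≤ 1 / 8 := by
    rw [sub_self, zero_add, div_le_div_iff₀ (by positivity) (by norm_num)]
    have : (D - 1) * (4 * (L : ℝ) - D) ≤ L * (4 * L) := by
      apply mul_le_mul <;> nlinarith
    nlinarith [mul_le_mul_of_nonneg_right this (by linarith : (0 : ℝ) ≤ n)]
  rw [t2]
  linarith

open Classical in
lemma EE_H (hD : 0 < Fintype.card (Diag n)) (hn : 1 ≤ n) (L : ℕ) (hL : 1 ≤ L)
    (hbig : 33 * L + 2 ≤ n) :
    (L : ℝ) / 4 ≤ EE (fun f : Diag n => Avg n (16 * L ^ 2 * n)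
      (fun l => ((Hs L (16 * L) f l).card : ℝ))) := by
  have hnr : (1 : ℝ) ≤ n := by exact_mod_cast hn
  have hn' : (0 : ℝ) < 2 * n - 1 := by linarith
  have hLr : (1 : ℝ) ≤ L := by exact_mod_cast hL
  set τ := 16 * L ^ 2 * n with hτ
  have h1 : ∀ f : Diag n, ∑ a ∈ Mid n L (16 * L), ∑ b ∈ nxt L a,
      (1 / 2 : ℝ) * (if f.1 a = b then 1 else 0) ≤
      Avg n τ (fun l => ((Hs L (16 * L) f l).card : ℝ)) := by
    intro f
    have e1 : ∀ l : List (Ch n), ((Hs L (16 * L) f l).card : ℝ) = ∑ a ∈ Mid n L (16 * L),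
        (if sr L f a ∧ Suc a.val (f.1 a).val (16 * L) l a (f.1 a) then (1 : ℝ) else 0) := by
      intro l
      rw [sum_boole]
      unfold Hs
      congr
    simp only [e1]
    rw [Avg_sum _ _ _ hn]
    apply sum_le_sum
    intro a ha
    unfold Mid at ha
    rw [mem_filter] at ha
    by_cases hsr : sr L f a
    · have e2 : f.1 a ∈ nxt L a := by
        unfold nxt
        rw [mem_filter]
        exact ⟨mem_univ _, hsr⟩
      rw [← mul_sum, sum_ite_eq, if_pos e2, mul_one]
      have h2 := suc_prob (n := n) a.val (f.1 a).val (16 * L) (4 * L) τ hn (by omega) (by omega)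
        (by rw [hτ]; exact Nat.succ_le_of_lt (Nat.mul_pos (Nat.mul_pos (by norm_num) (Nat.pow_pos hL)) hn)) (by omega) (by have := hsr.2; omega) τ le_rfl a (f.1 a) hsr.1
        (by have := hsr.2; omega)
      have h3 := Fp_half (n := n) a.val (f.1 a).val L hn hL hsr.1 hsr.2
      refine (h3.trans h2).trans (le_of_eq ?_)
      congr 1
      funext l
      simp [hsr]
    · have e2 : f.1 a ∉ nxt L a := by
        unfold nxt
        rw [mem_filter]
        exact fun h => hsr h.2
      rw [← mul_sum, sum_ite_eq, if_neg e2, mul_zero]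
      have h := Avg_mono τ (fun _ => (0 : ℝ)) (fun l => if sr L f a ∧
        Suc a.val (f.1 a).val (16 * L) l a (f.1 a) then (1 : ℝ) else 0) (fun l => by
          split_ifs <;> norm_num)
      rwa [Avg_const hn] at h
  refine le_trans ?_ (EE_mono h1)
  rw [EE_sum]
  have h2 : ∀ a ∈ Mid n L (16 * L), (L : ℝ) * (1 / 2 * (1 / (2 * n - 1))) ≤
      EE (fun f : Diag n => ∑ b ∈ nxt L a, (1 / 2 : ℝ) * (if f.1 a = b then 1 else 0)) := by
    intro a ha
    unfold Mid at ha
    rw [mem_filter] at ha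
    rw [EE_sum]
    have h3 : ∀ b ∈ nxt L a, EE (fun f : Diag n => (1 / 2 : ℝ) * (if f.1 a = b then 1 else 0)) =
        1 / 2 * (1 / (2 * n - 1)) := by
      intro b hb
      unfold nxt at hb
      rw [mem_filter] at hb
      rw [EE_smul, EE_one hD hn a b]
      intro e
      rw [e] at hb
      omega
    rw [sum_congr rfl h3, sum_const, nsmul_eq_mul, nxt_card_eq L a (by omega)]
  refine le_trans ?_ (sum_le_sum h2)
  rw [sum_const, nsmul_eq_mul]
  have hM : n ≤ (Mid n L (16 * L)).card := by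
    have h4 : (Ico (16 * L + 1) (16 * L + 1 + n)).card ≤ (Mid n L (16 * L)).card := by
      apply card_le_card_of_injOn (fun b => if hb : b < 2 * n then (⟨b, hb⟩ : Fin (2 * n))
        else ⟨0, by omega⟩)
      · intro b hb
        rw [mem_coe, mem_Ico] at hb
        have hb2 : b < 2 * n := by omega
        simp only [hb2, dif_pos]
        unfold Mid
        rw [coe_filter, Set.mem_ofPred_eq]
        exact ⟨mem_univ _, by simp only; omega, by simp only; omega⟩
      · intro b hb b' hb' h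
        rw [mem_coe, mem_Ico] at hb hb'
        have hb2 : b < 2 * n := by omega
        have hb2' : b' < 2 * n := by omega
        simp only [hb2, hb2', dif_pos, Fin.mk.injEq] at h
        exact h
    rwa [Nat.card_Ico, Nat.add_sub_cancel_left] at h4
  have hMr : (n : ℝ) ≤ (Mid n L (16 * L)).card := by exact_mod_cast hM
  have h5 : (L : ℝ) / 4 ≤ n * (L * (1 / 2 * (1 / (2 * n - 1)))) := by
    have : (n : ℝ) * (L * (1 / 2 * (1 / (2 * n - 1)))) = (n * L) / (2 * (2 * n - 1)) := by
      field_simp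
    rw [this, div_le_div_iff₀ (by norm_num) (by positivity)]
    nlinarith
  refine h5.trans ?_
  apply mul_le_mul_of_nonneg_right hMr
  positivity

open Classical in
/-- With probability at least `1/384` the process produces at least `L / 13824` short chords. -/
theorem PX_lower (n L k : ℕ) (hD : 0 < Fintype.card (Diag n)) (hL : 1 ≤ L) (hL2 : L ^ 2 ≤ n)
    (hbig : 33 * L + 2 ≤ n) (hk : 13824 * k ≤ L) : 1 / 384 ≤ PX n {x | k ≤ x} := by
  have hn : 1 ≤ n := by omega
  have hLr : (1 : ℝ) ≤ L := by exact_mod_cast hL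
  have hkr : 13824 * (k : ℝ) ≤ L := by exact_mod_cast hk
  have hL2r : (L : ℝ) ^ 2 ≤ n := by exact_mod_cast hL2
  set τ := 16 * L ^ 2 * n with hτ
  set Bl := 17 * L with hBl
  set S : Diag n → ℝ := fun f => ∑ w ∈ range (2 * n / Bl + 1), ((blk L Bl f w).card : ℝ) ^ 2
    with hS
  -- pointwise inequality
  have hpt : ∀ (f : Diag n) (l : List (Ch n)), ((Hs L (16 * L) f l).card : ℝ) ≤
      (864 * k + (1 / 576) * S f + (1 / (96 * L)) * (Ns L f : ℝ) ^ 2) +
        (24 * L) * (if k ≤ numShort (run f l) then 1 else 0) := by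
    intro f l
    have hS0 : 0 ≤ S f := sum_nonneg fun w _ => by positivity
    have hN0 : (0 : ℝ) ≤ (1 / (96 * L)) * (Ns L f : ℝ) ^ 2 := by positivity
    by_cases h : k ≤ numShort (run f l)
    · rw [if_pos h]
      have h1 : ((Hs L (16 * L) f l).card : ℝ) ≤ Ns L f := by exact_mod_cast H_le_N L _ f l
      have h2 : (Ns L f : ℝ) ≤ (1 / (96 * L)) * (Ns L f : ℝ) ^ 2 + 24 * L := by
        set u := (Ns L f : ℝ)
        rw [← sub_nonneg]
        have : (1 / (96 * L)) * u ^ 2 + 24 * L - u = (u - 48 * L) ^ 2 / (96 * L) := by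
          field_simp
          ring
        rw [this]
        positivity
      have h3 : (0 : ℝ) ≤ 864 * k := by positivity
      linarith
    · rw [if_neg h]
      have h1 := H_le L (16 * L) Bl (by rw [hBl]; omega) (by rw [hBl]; omega) f l 288
        (by norm_num)
      have h2 : ((numShort (run f l) : ℕ) : ℝ) ≤ k := by
        have : numShort (run f l) ≤ k := by omega
        exact_mod_cast this
      simp only [hS]
      linarith
  -- take expectations
  have h1 := EE_H hD hn L hL hbig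
  have h2 : EE (fun f : Diag n => Avg n τ (fun l => ((Hs L (16 * L) f l).card : ℝ))) ≤
      EE (fun f : Diag n => (864 * k + (1 / 576) * S f + (1 / (96 * L)) * (Ns L f : ℝ) ^ 2) +
        (24 * L) * Avg n τ (fun l => if k ≤ numShort (run f l) then 1 else 0)) := by
    apply EE_mono
    intro f
    refine (Avg_mono τ _ _ (hpt f)).trans (le_of_eq ?_)
    rw [Avg_add, Avg_const hn, Avg_smul]
  have h3 : EE (fun f : Diag n => (864 * k + (1 / 576) * S f +
      (1 / (96 * L)) * (Ns L f : ℝ) ^ 2) +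
        (24 * L) * Avg n τ (fun l => if k ≤ numShort (run f l) then (1 : ℝ) else 0)) =
      EE (fun _ : Diag n => 864 * (k : ℝ)) + (1 / 576) * EE S +
        (1 / (96 * L)) * EE (fun f : Diag n => (Ns L f : ℝ) ^ 2) +
        (24 * L) * EE (fun f : Diag n =>
          Avg n τ (fun l => if k ≤ numShort (run f l) then (1 : ℝ) else 0)) := by
    rw [EE_add, EE_add, EE_add, EE_smul (1 / 576) S, EE_smul (1 / (96 * (L : ℝ))),
      EE_smul (24 * (L : ℝ))]
  have h4 : EE (fun _ : Diag n => 864 * (k : ℝ)) = 864 * k := by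
    unfold EE
    rw [sum_const, card_univ, nsmul_eq_mul]
    have : (Fintype.card (Diag n) : ℝ) ≠ 0 := by exact_mod_cast hD.ne'
    field_simp
  have h5 := EE_S hD (by omega) L Bl (by rw [hBl]; omega) hL2r
  have h6 := EE_N hD (by omega) L hL
  have h7 : EE (fun f : Diag n =>
      Avg n τ (fun l => if k ≤ numShort (run f l) then (1 : ℝ) else 0)) ≤ PX n {x | k ≤ x} := by
    have h8 := PX_ge (n := n) hn k τ
    refine le_trans (le_of_eq ?_) h8
    unfold EE
    rw [mul_sum]
    rfl
  rw [h3, h4] at h2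
  have h8 : (1 / (96 * (L : ℝ))) * EE (fun f : Diag n => (Ns L f : ℝ) ^ 2) ≤ L / 16 := by
    calc (1 / (96 * (L : ℝ))) * EE (fun f : Diag n => (Ns L f : ℝ) ^ 2) ≤
        (1 / (96 * (L : ℝ))) * (6 * (L : ℝ) ^ 2) :=
          mul_le_mul_of_nonneg_left h6 (by positivity)
      _ = L / 16 := by
          field_simp
          norm_num
  have h9 : (1 / 576 : ℝ) * EE S ≤ L / 16 := by
    have h10 : EE S ≤ 2 * L + 2 * (Bl : ℝ) := h5
    rw [hBl] at h10
    push_cast at h10
    linarith
  have h10 := mul_le_mul_of_nonneg_left h7 (by linarith : (0 : ℝ) ≤ 24 * L)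
  have h11 : (L : ℝ) / 16 ≤ 24 * L * PX n {x | k ≤ x} := by linarith
  have h12 : (0 : ℝ) < L := by linarith
  have h13 : (1 / 384 : ℝ) * (24 * L) ≤ PX n {x | k ≤ x} * (24 * L) := by linarith
  exact le_of_mul_le_mul_right h13 (by positivity)

end Pool.Agent.LibCryst
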