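import Pool.Agent.LibCryst.Chain

set_option autoImplicit false

open Finset Filter

namespace Pool.Agent.LibCryst

variable {n : ℕ}

/-- choices of the slowed process: a vertex and a direction -/
abbrev Ch (n : ℕ) : Type := Fin (2 * n) × Bool

/-- the chosen neighbour; forced at the two ends -/
def nb (c : Ch n) : Fin (2 * n) :=
  if c.2 then
    (if h : c.1.val + 1 < 2 * n then ⟨c.1.val + 1, h⟩
      else ⟨c.1.val - 1, by have := c.1.2; omega⟩)
  else
    (if _h : 1 ≤ c.1.val then ⟨c.1.val - 1, by have := c.1.2; omega⟩
      else ⟨c.1.val + 1, by have := c.1.2; omega⟩)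

lemma nb_adj (c : Ch n) : (nb c).val = c.1.val + 1 ∨ c.1.val = (nb c).val + 1 := by
  have := c.1.2
  unfold nb
  split_ifs <;> simp <;> omega

lemma nb_sum (i : Fin (2 * n)) (g : Fin (2 * n) → ℝ) :
    g (nb (i, true)) + g (nb (i, false)) =
      2 * ∑ j ∈ nbrs i, (1 / ((nbrs i).card : ℝ)) * g j := by
  have hi := i.2
  by_cases h1 : i.val + 1 < 2 * n
  · by_cases h2 : 1 ≤ i.val
    · have e1 : nb (i, true) = ⟨i.val + 1, h1⟩ := by
        unfold nb; simp [h1]
      have e2 : nb (i, false) = ⟨i.val - 1, by omega⟩ := by
        unfold nb; simp [h2]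
      have e3 : nbrs i = {(⟨i.val + 1, h1⟩ : Fin (2 * n)), ⟨i.val - 1, by omega⟩} := by
        unfold nbrs
        ext j
        simp only [mem_filter, mem_univ, true_and, mem_insert, mem_singleton, Fin.ext_iff]
        omega
      have hne : (⟨i.val + 1, h1⟩ : Fin (2 * n)) ≠ ⟨i.val - 1, by omega⟩ := by
        intro h
        have := congrArg Fin.val h
        simp only at this
        omega
      rw [e1, e2, e3, sum_pair hne, card_pair hne]
      push_cast
      ring
    · have e1 : nb (i, true) = ⟨i.val + 1, h1⟩ := by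
        unfold nb; simp [h1]
      have e2 : nb (i, false) = ⟨i.val + 1, h1⟩ := by
        unfold nb; simp [h2]
      have e3 : nbrs i = {(⟨i.val + 1, h1⟩ : Fin (2 * n))} := by
        unfold nbrs
        ext j
        simp only [mem_filter, mem_univ, true_and, mem_singleton, Fin.ext_iff]
        omega
      rw [e1, e2, e3, sum_singleton, card_singleton]
      push_cast
      ring
  · have h2 : 1 ≤ i.val := by omega
    have e1 : nb (i, true) = ⟨i.val - 1, by omega⟩ := by
      unfold nb; simp [h1]
    have e2 : nb (i, false) = ⟨i.val - 1, by omega⟩ := by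
      unfold nb; simp [h2]
    have e3 : nbrs i = {(⟨i.val - 1, by omega⟩ : Fin (2 * n))} := by
      unfold nbrs
      ext j
      have := j.2
      simp only [mem_filter, mem_univ, true_and, mem_singleton, Fin.ext_iff]
      omega
    rw [e1, e2, e3, sum_singleton, card_singleton]
    push_cast
    ring

open Classical in
/-- one step of the slowed process -/
noncomputable def sl (f : Diag n) (c : Ch n) : Diag n :=
  if Crystallized f ∨ ShortV f c.1 then f else move f c.1 (nb c)

lemma sl_sum (h : Diag n → ℝ) (hh : ∀ f, Kop h f = h f) (f : Diag n) :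
    ∑ c : Ch n, h (sl f c) = (4 * n : ℝ) * h f := by
  classical
  have hcard : ((univ : Finset (Ch n)).card : ℝ) = 4 * n := by
    rw [card_univ, Fintype.card_prod, Fintype.card_fin, Fintype.card_bool]
    push_cast
    ring
  by_cases hf : Crystallized f
  · have : ∀ c : Ch n, h (sl f c) = h f := by
      intro c
      unfold sl
      rw [if_pos (Or.inl hf)]
    rw [sum_congr rfl fun c _ => this c, sum_const, nsmul_eq_mul, hcard]
  · rw [Fintype.sum_prod_type]
    simp only [Fintype.sum_bool]
    have h1 : ∀ i : Fin (2 * n), h (sl f (i, true)) + h (sl f (i, false)) =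
        if i ∈ free f then 2 * ∑ j ∈ nbrs i, (1 / ((nbrs i).card : ℝ)) * h (move f i j)
        else 2 * h f := by
      intro i
      by_cases hi : ShortV f i
      · have hi' : i ∉ free f := by
          unfold free
          rw [mem_filter]
          exact fun h => h.2 hi
        rw [if_neg hi']
        unfold sl
        rw [if_pos (Or.inr hi), if_pos (Or.inr hi)]
        ring
      · have hi' : i ∈ free f := by
          unfold free
          rw [mem_filter]
          exact ⟨mem_univ _, hi⟩
        rw [if_pos hi']
        unfold sl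
        rw [if_neg (by simp [hf, hi]), if_neg (by simp [hf, hi])]
        exact nb_sum i (fun j => h (move f i j))
    rw [sum_congr rfl fun i _ => h1 i, sum_ite]
    have h2 := hh f
    rw [Kop_not _ _ hf] at h2
    have hF : 0 < ((free f).card : ℝ) := by exact_mod_cast (free_nonempty f hf).card_pos
    have e1 : univ.filter (fun i : Fin (2 * n) => i ∈ free f) = free f := by
      ext i; simp
    rw [e1]
    have h3 : ∑ i ∈ free f, 2 * ∑ j ∈ nbrs i, (1 / ((nbrs i).card : ℝ)) * h (move f i j) =
        2 * (free f).card * h f := by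
      rw [← h2, ← mul_sum, ← mul_sum]
      field_simp
    rw [h3, sum_const, nsmul_eq_mul]
    have h4 : ((univ.filter (fun i : Fin (2 * n) => ¬ i ∈ free f)).card : ℝ) =
        2 * n - (free f).card := by
      have := card_filter_add_card_filter_not (s := (univ : Finset (Fin (2 * n))))
        (fun i => i ∈ free f)
      rw [e1, card_univ, Fintype.card_fin] at this
      have h5 : ((free f).card : ℝ) +
          (univ.filter (fun i : Fin (2 * n) => ¬ i ∈ free f)).card = 2 * n := by
        exact_mod_cast this
      linarith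
    rw [h4]
    ring

/-- average over sequences of `r` independent uniform choices -/
noncomputable def Avg (n : ℕ) : ℕ → (List (Ch n) → ℝ) → ℝ
  | 0, G => G []
  | r + 1, G => (1 / (4 * n : ℝ)) * ∑ c : Ch n, Avg n r (fun l => G (c :: l))

lemma Avg_succ (r : ℕ) (G : List (Ch n) → ℝ) :
    Avg n (r + 1) G = (1 / (4 * n : ℝ)) * ∑ c : Ch n, Avg n r (fun l => G (c :: l)) := rfl

lemma Avg_mono (r : ℕ) : ∀ (G H : List (Ch n) → ℝ), (∀ l, G l ≤ H l) →
    Avg n r G ≤ Avg n r H := by
  induction r with
  | zero => intro G H h; exact h []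
  | succ r ih =>
    intro G H h
    rw [Avg_succ, Avg_succ]
    apply mul_le_mul_of_nonneg_left _ (by positivity)
    exact sum_le_sum fun c _ => ih _ _ fun l => h (c :: l)

lemma Avg_add (r : ℕ) : ∀ (G H : List (Ch n) → ℝ),
    Avg n r (fun l => G l + H l) = Avg n r G + Avg n r H := by
  induction r with
  | zero => intro G H; rfl
  | succ r ih =>
    intro G H
    rw [Avg_succ, Avg_succ, Avg_succ]
    simp only [ih, sum_add_distrib, mul_add]

lemma Avg_smul (r : ℕ) (a : ℝ) : ∀ (G : List (Ch n) → ℝ),
    Avg n r (fun l => a * G l) = a * Avg n r G := by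
  induction r with
  | zero => intro G; rfl
  | succ r ih =>
    intro G
    rw [Avg_succ, Avg_succ]
    simp only [ih, ← mul_sum]
    ring

lemma card_Ch (hn : 1 ≤ n) : (1 / (4 * n : ℝ)) * ((univ : Finset (Ch n)).card : ℝ) = 1 := by
  rw [card_univ, Fintype.card_prod, Fintype.card_fin, Fintype.card_bool]
  have : (n : ℝ) ≠ 0 := by positivity
  push_cast
  field_simp
  norm_num

lemma Avg_const (hn : 1 ≤ n) (r : ℕ) (a : ℝ) : Avg n r (fun _ => a) = a := by
  induction r with
  | zero => rfl
  | succ r ih =>
    rw [Avg_succ]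
    simp only [ih]
    rw [sum_const, nsmul_eq_mul, ← mul_assoc, card_Ch hn, one_mul]

lemma Avg_sum {ι : Type} (s : Finset ι) (r : ℕ) (G : ι → List (Ch n) → ℝ) (hn : 1 ≤ n) :
    Avg n r (fun l => ∑ i ∈ s, G i l) = ∑ i ∈ s, Avg n r (G i) := by
  classical
  induction s using Finset.induction_on with
  | empty => simpa using Avg_const hn r 0
  | insert a s ha ih =>
    simp only [sum_insert ha]
    rw [Avg_add, ih]

/-- the slowed process driven by a list of choices -/
noncomputable def run (f : Diag n) (l : List (Ch n)) : Diag n := l.foldl sl f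

lemma run_cons (f : Diag n) (c : Ch n) (l : List (Ch n)) : run f (c :: l) = run (sl f c) l := rfl

lemma run_nil (f : Diag n) : run f [] = f := rfl

lemma Avg_harm (hn : 1 ≤ n) (h : Diag n → ℝ) (hh : ∀ f, Kop h f = h f) (r : ℕ) :
    ∀ f : Diag n, Avg n r (fun l => h (run f l)) = h f := by
  induction r with
  | zero => intro f; rfl
  | succ r ih =>
    intro f
    rw [Avg_succ]
    simp only [run_cons, ih]
    rw [sl_sum h hh, ← mul_assoc, one_div_mul_cancel (by positivity), one_mul]

theorem PX_ge (hn : 1 ≤ n) (k r : ℕ) :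
    ∑ f, law n 0 f * Avg n r (fun l => if k ≤ numShort (run f l) then 1 else 0) ≤
      PX n {x | k ≤ x} := by
  rw [PX_eq]
  apply sum_le_sum
  intro f _
  apply mul_le_mul_of_nonneg_left _ (law_nonneg 0 f)
  rw [← Avg_harm hn (hlim n {x | k ≤ x}) (hlim_harm _) r f]
  apply Avg_mono
  intro l
  split_ifs with h
  · rw [hlim_ge k _ h]
  · exact hlim_nonneg _ _

lemma sl_short (f : Diag n) (c : Ch n) {x : Fin (2 * n)} (h : ShortV f x) :
    ShortV (sl f c) x ∧ (sl f c).1 x = f.1 x := by
  unfold sl
  split_ifs with h1
  · exact ⟨h, rfl⟩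
  · push Not at h1
    exact shortV_move f h1.2 h

lemma run_short (f : Diag n) (l : List (Ch n)) {x : Fin (2 * n)} (h : ShortV f x) :
    ShortV (run f l) x := by
  induction l generalizing f with
  | nil => exact h
  | cons c l ih =>
    rw [run_cons]
    exact ih _ (sl_short f c h).1

end Pool.Agent.LibCryst
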