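import Pool.Agent.LibCryst.Upper

set_option autoImplicit false

open Finset Filter

namespace Pool.Agent.LibCryst

variable {n : ℕ}

/-- the vertices not used by the prescribed short chords -/
def UU (A : Finset (Fin (2 * n))) : Finset (Fin (2 * n)) := univ \ VS A

lemma mem_UU (A : Finset (Fin (2 * n))) (x : Fin (2 * n)) : x ∈ UU A ↔ x ∉ VS A := by
  unfold UU
  rw [Finset.mem_sdiff]
  simp

/-- vertices whose partner lies in the same block -/
def Int (A : Finset (Fin (2 * n))) (β : Fin (2 * n) → ℕ) (f : Diag n) : Finset (Fin (2 * n)) :=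
  (UU A).filter (fun x => β (f.1 x) = β x)

lemma UU_partner (A : Finset (Fin (2 * n))) (f : Diag n) (hf : Pat A f) (x : Fin (2 * n))
    (hx : x ∈ UU A) : f.1 x ∈ UU A := by
  rw [mem_UU] at hx ⊢
  intro h
  apply hx
  have := pat_VS A f hf _ h
  rwa [dinv] at this

lemma switch_int (A : Finset (Fin (2 * n))) (β : Fin (2 * n) → ℕ) (f : Diag n)
    (x y : Fin (2 * n)) (hf : Pat A f) (hx : x ∈ Int A β f) (hy : y ∈ UU A)
    (hyx : β y ≠ β x) (hfyx : β (f.1 y) ≠ β x) :
    Pat A (swapD f (f.1 x) y) ∧ (swapD f (f.1 x) y).1 x = y ∧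
    ((Int A β (swapD f (f.1 x) y)).card + 2 = (Int A β f).card ∨
      (Int A β (swapD f (f.1 x) y)).card + 4 = (Int A β f).card) := by
  unfold Int at hx
  rw [mem_filter] at hx
  obtain ⟨hxU, hxβ⟩ := hx
  have hfxU := UU_partner A f hf x hxU
  have hfyU := UU_partner A f hf y hy
  set g := swapD f (f.1 x) y with hg
  have n1 : x ≠ y := by rintro rfl; exact hyx rfl
  have n2 : f.1 x ≠ y := by
    intro h; rw [h] at hxβ; exact hyx hxβ
  have n3 : f.1 y ≠ x := by
    intro h; apply n2; rw [← h, dinv]
  have n4 : f.1 y ≠ f.1 x := fun h => n1 (dinj f h).symm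
  have gx : g.1 x = y := by
    rw [hg, swapD_apply, Equiv.swap_apply_of_ne_of_ne (dne f x).symm n1, Equiv.swap_apply_left]
  have gfx : g.1 (f.1 x) = f.1 y := by
    rw [hg, swapD_apply, Equiv.swap_apply_left, Equiv.swap_apply_of_ne_of_ne n4 (dne f y)]
  have gy : g.1 y = x := by rw [← gx, dinv]
  have gfy : g.1 (f.1 y) = f.1 x := by rw [← gfx, dinv]
  have gz : ∀ z, z ≠ x → z ≠ f.1 x → z ≠ y → z ≠ f.1 y → g.1 z = f.1 z := by
    intro z h1 h2 h3 h4
    apply swapD_of_ne f _ _ _ h2 h3
    · intro h; exact h1 (dinj f h)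
    · intro h; apply h4; rw [← h, dinv]
  refine ⟨pat_inv A f _ _ ((mem_UU _ _).1 hfxU) ((mem_UU _ _).1 hy) hf, gx, ?_⟩
  have hI : Int A β g = Int A β f \ {x, f.1 x, y, f.1 y} := by
    ext z
    unfold Int
    rw [mem_filter, Finset.mem_sdiff, mem_filter]
    simp only [mem_insert, mem_singleton, not_or]
    by_cases h1 : z = x
    · subst h1
      simp only [gx, not_true_eq_false, false_and, and_false, iff_false, not_and]
      exact fun _ => hyx
    · by_cases h2 : z = f.1 x
      · subst h2
        simp only [gfx, not_true_eq_false, false_and, and_false, iff_false, not_and]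
        intro _ h
        exact hfyx (h.trans hxβ)
      · by_cases h3 : z = y
        · subst h3
          simp only [gy, not_true_eq_false, false_and, and_false, iff_false, not_and]
          exact fun _ h => hyx h.symm
        · by_cases h4 : z = f.1 y
          · subst h4
            simp only [gfy, not_true_eq_false, and_false, iff_false, not_and]
            intro _ h
            exact hfyx (h.symm.trans hxβ)
          · rw [gz z h1 h2 h3 h4]
            simp [h1, h2, h3, h4]
  have hcard := card_sdiff_add_card_inter (Int A β f) {x, f.1 x, y, f.1 y}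
  rw [← hI] at hcard
  have hxI : x ∈ Int A β f := by
    unfold Int; rw [mem_filter]; exact ⟨hxU, hxβ⟩
  have hfxI : f.1 x ∈ Int A β f := by
    unfold Int; rw [mem_filter, dinv]; exact ⟨hfxU, hxβ.symm⟩
  by_cases hyI : β (f.1 y) = β y
  · right
    have e : Int A β f ∩ {x, f.1 x, y, f.1 y} = {x, f.1 x, y, f.1 y} := by
      apply inter_eq_right.2
      intro z hz
      simp only [mem_insert, mem_singleton] at hz
      rcases hz with rfl | rfl | rfl | rfl
      · exact hxI
      · exact hfxI
      · unfold Int; rw [mem_filter]; exact ⟨hy, hyI⟩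
      · unfold Int; rw [mem_filter, dinv]; exact ⟨hfyU, hyI.symm⟩
    rw [e] at hcard
    rw [card_insert_of_notMem, card_insert_of_notMem, card_pair (dne f y).symm] at hcard
    · omega
    · simp only [mem_insert, mem_singleton, not_or]
      exact ⟨n2, n4.symm⟩
    · simp only [mem_insert, mem_singleton, not_or]
      exact ⟨(dne f x).symm, n1, n3.symm⟩
  · left
    have e : Int A β f ∩ {x, f.1 x, y, f.1 y} = {x, f.1 x} := by
      ext z
      simp only [mem_inter, mem_insert, mem_singleton]
      constructor
      · rintro ⟨hz, rfl | rfl | rfl | rfl⟩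
        · exact Or.inl rfl
        · exact Or.inr rfl
        · unfold Int at hz
          rw [mem_filter] at hz
          exact absurd hz.2 hyI
        · unfold Int at hz
          rw [mem_filter, dinv] at hz
          exact absurd hz.2.symm hyI
      · rintro (rfl | rfl)
        · exact ⟨hxI, Or.inl rfl⟩
        · exact ⟨hfxI, Or.inr (Or.inl rfl)⟩
    rw [e, card_pair (dne f x).symm] at hcard
    omega

open Classical in
/-- diagrams containing the prescribed short chords with `J` internal vertices -/
noncomputable def NJ (A : Finset (Fin (2 * n))) (β : Fin (2 * n) → ℕ) (J : ℕ) :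
    Finset (Diag n) :=
  univ.filter (fun f => Pat A f ∧ (Int A β f).card = J)

open Classical in
/-- the switching inequality -/
theorem switch_count (A : Finset (Fin (2 * n))) (β : Fin (2 * n) → ℕ) (b : ℕ)
    (hb : ∀ w, ((UU A).filter (fun x => β x = w)).card ≤ b) (J : ℕ) :
    (NJ A β J).card * (J * ((UU A).card - 2 * b)) ≤
      (univ.filter (fun f : Diag n => Pat A f ∧ ((Int A β f).card + 2 = J ∨
        (Int A β f).card + 4 = J))).card * ((UU A).card * b) := by
  -- the set of switchings
  set P : Finset ((_ : Diag n) × (_ : Fin (2 * n)) × Fin (2 * n)) :=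
    (NJ A β J).sigma (fun f => (Int A β f).sigma (fun x =>
      (UU A).filter (fun y => β y ≠ β x ∧ β (f.1 y) ≠ β x))) with hP
  set Q : Finset ((_ : Diag n) × (_ : Fin (2 * n)) × Fin (2 * n)) :=
    (univ.filter (fun f : Diag n => Pat A f ∧ ((Int A β f).card + 2 = J ∨
        (Int A β f).card + 4 = J))).sigma (fun _ => (UU A).sigma (fun x =>
      (UU A).filter (fun y => β y = β x))) with hQ
  have hPc : (NJ A β J).card * (J * ((UU A).card - 2 * b)) ≤ P.card := by
    rw [hP, card_sigma, ← smul_eq_mul, ← sum_const]
    apply sum_le_sum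
    intro f hf
    unfold NJ at hf
    rw [mem_filter] at hf
    rw [card_sigma]
    nth_rewrite 1 [← hf.2.2]
    rw [← smul_eq_mul, ← sum_const]
    apply sum_le_sum
    intro x hx
    have h1 : UU A ⊆ ((UU A).filter (fun y => β y ≠ β x ∧ β (f.1 y) ≠ β x) ∪
        (UU A).filter (fun y => β y = β x)) ∪ ((UU A).filter (fun y => β y = β x)).image f.1 := by
      intro y hy
      rw [mem_union, mem_union, mem_filter, mem_filter, mem_image]
      by_cases h2 : β y = β x
      · exact Or.inl (Or.inr ⟨hy, h2⟩)
      · by_cases h3 : β (f.1 y) = β x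
        · right
          refine ⟨f.1 y, ?_, dinv f y⟩
          rw [mem_filter]
          exact ⟨UU_partner A f hf.2.1 y hy, h3⟩
        · exact Or.inl (Or.inl ⟨hy, h2, h3⟩)
    have h2 := card_le_card h1
    have h3 := card_union_le ((UU A).filter (fun y => β y ≠ β x ∧ β (f.1 y) ≠ β x) ∪
        (UU A).filter (fun y => β y = β x)) (((UU A).filter (fun y => β y = β x)).image f.1)
    have h4 := card_union_le ((UU A).filter (fun y => β y ≠ β x ∧ β (f.1 y) ≠ β x))
        ((UU A).filter (fun y => β y = β x))
    have h5 := card_image_le (s := (UU A).filter (fun y => β y = β x)) (f := f.1)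
    have h6 := hb (β x)
    omega
  have hQc : Q.card ≤ (univ.filter (fun f : Diag n => Pat A f ∧ ((Int A β f).card + 2 = J ∨
        (Int A β f).card + 4 = J))).card * ((UU A).card * b) := by
    rw [hQ, card_sigma]
    refine (sum_le_card_nsmul _ _ ((UU A).card * b) ?_).trans (le_of_eq (smul_eq_mul _ _))
    intro f _
    rw [card_sigma]
    refine (sum_le_card_nsmul _ _ b ?_).trans (le_of_eq (smul_eq_mul _ _))
    intro x _
    exact hb (β x)
  refine hPc.trans (le_trans ?_ hQc)
  apply card_le_card_of_injOn
    (fun t => (⟨swapD t.1 (t.1.1 t.2.1) t.2.2, t.2.1, t.1.1 t.2.1⟩ :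
      (_ : Diag n) × (_ : Fin (2 * n)) × Fin (2 * n)))
  · rintro ⟨f, x, y⟩ ht
    rw [mem_coe, hP, mem_sigma, mem_sigma, mem_filter] at ht
    simp only at ht
    obtain ⟨h1, h2, h3, h4, h5⟩ := ht
    unfold NJ at h1
    rw [mem_filter] at h1
    obtain ⟨g1, g2, g3⟩ := switch_int A β f x y h1.2.1 h2 h3 h4 h5
    rw [mem_coe, hQ, mem_sigma, mem_sigma, mem_filter, mem_filter]
    simp only
    have h2' := h2
    unfold Int at h2'
    rw [mem_filter] at h2'
    refine ⟨⟨mem_univ _, g1, ?_⟩, h2'.1, UU_partner A f h1.2.1 x h2'.1, h2'.2⟩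
    rw [h1.2.2] at g3
    exact g3
  · rintro ⟨f, x, y⟩ ht ⟨f', x', y'⟩ ht' heq
    rw [mem_coe, hP, mem_sigma, mem_sigma, mem_filter] at ht ht'
    simp only at ht ht'
    obtain ⟨h1, h2, h3, h4, h5⟩ := ht
    obtain ⟨h1', h2', h3', h4', h5'⟩ := ht'
    unfold NJ at h1 h1'
    rw [mem_filter] at h1 h1'
    obtain ⟨g1, g2, g3⟩ := switch_int A β f x y h1.2.1 h2 h3 h4 h5
    obtain ⟨g1', g2', g3'⟩ := switch_int A β f' x' y' h1'.2.1 h2' h3' h4' h5'
    simp only [Sigma.mk.injEq, heq_eq_eq] at heq
    obtain ⟨e1, e2, e3⟩ := heq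
    subst e2
    have ey : y = y' := by
      rw [← g2, ← g2', e1]
    subst ey
    have ef : f = f' := by
      have h6 := congrArg (fun h => swapD h (f.1 x) y) e1
      simp only [swapD_swapD] at h6
      rw [h6, e3, swapD_swapD]
    subst ef
    rfl

/-- auxiliary weights -/
noncomputable def ww (b : ℕ) : ℕ → ℝ
  | 0 => 1
  | J + 1 => ww b J * max 1 (4 * b / ((J : ℝ) + 1))

lemma ww_pos (b J : ℕ) : 0 < ww b J := by
  induction J with
  | zero => unfold ww; norm_num
  | succ J ih =>
    unfold ww
    have : (1 : ℝ) ≤ max 1 (4 * b / ((J : ℝ) + 1)) := le_max_left _ _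
    positivity

lemma ww_mono (b : ℕ) : Monotone (ww b) := by
  apply monotone_nat_of_le_succ
  intro J
  show ww b J ≤ ww b J * max 1 (4 * b / ((J : ℝ) + 1))
  exact le_mul_of_one_le_right (ww_pos b J).le (le_max_left _ _)

lemma ww_small (b : ℕ) : ∀ J, J ≤ 4 * b → ww b J = (4 * b : ℝ) ^ J / (Nat.factorial J : ℝ) := by
  intro J
  induction J with
  | zero => intro _; simp [ww]
  | succ J ih =>
    intro hJ
    have h1 : max (1 : ℝ) (4 * b / ((J : ℝ) + 1)) = 4 * b / ((J : ℝ) + 1) := by
      apply max_eq_right
      rw [le_div_iff₀ (by positivity), one_mul]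
      exact_mod_cast hJ
    show ww b J * max 1 (4 * b / ((J : ℝ) + 1)) = _
    rw [h1, ih (by omega), Nat.factorial_succ]
    push_cast
    have : (Nat.factorial J : ℝ) ≠ 0 := by positivity
    field_simp
    ring

lemma ww_le (b J : ℕ) : ww b J ≤ Real.exp (4 * b) := by
  have h1 : ww b J ≤ ww b (4 * b) := by
    rcases le_total J (4 * b) with h | h
    · exact ww_mono b h
    · apply le_of_eq
      induction J, h using Nat.le_induction with
      | base => rfl
      | succ J hJ ih =>
        show ww b J * max 1 (4 * b / ((J : ℝ) + 1)) = _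
        have h2 : max (1 : ℝ) (4 * b / ((J : ℝ) + 1)) = 1 := by
          apply max_eq_left
          rw [div_le_one (by positivity)]
          have : (4 * b : ℝ) ≤ J := by exact_mod_cast hJ
          linarith
        rw [h2, mul_one, ih]
  refine h1.trans ?_
  rw [ww_small b (4 * b) le_rfl]
  have := Real.pow_div_factorial_le_exp (4 * b : ℝ) (by positivity) (4 * b)
  exact_mod_cast this

open Classical in
theorem NJ_le (A : Finset (Fin (2 * n))) (β : Fin (2 * n) → ℕ) (b : ℕ) (hb1 : 1 ≤ b)
    (hb : ∀ w, ((UU A).filter (fun x => β x = w)).card ≤ b) (hU : 4 * b ≤ (UU A).card) (J : ℕ) :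
    ((NJ A β J).card : ℝ) ≤ ww b J * (NJ A β 0).card := by
  induction J using Nat.strong_induction_on with
  | _ J ih =>
    rcases Nat.eq_zero_or_pos J with h0 | h0
    · subst h0
      simp [ww]
    · obtain ⟨J', rfl⟩ : ∃ J', J = J' + 1 := ⟨J - 1, by omega⟩
      have h1 := switch_count A β b hb (J' + 1)
      set M := (univ.filter (fun f : Diag n => Pat A f ∧ ((Int A β f).card + 2 = J' + 1 ∨
        (Int A β f).card + 4 = J' + 1))).card with hM
      have hM2 : (M : ℝ) ≤ 2 * (ww b J' * (NJ A β 0).card) := by
        have h2 : M ≤ (univ.filter (fun f : Diag n => Pat A f ∧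
            (Int A β f).card + 2 = J' + 1)).card + (univ.filter (fun f : Diag n => Pat A f ∧
            (Int A β f).card + 4 = J' + 1)).card := by
          rw [hM]
          refine le_trans (card_le_card ?_) (card_union_le _ _)
          intro f hf
          rw [mem_filter] at hf
          rw [mem_union, mem_filter, mem_filter]
          rcases hf.2.2 with h | h
          · exact Or.inl ⟨mem_univ _, hf.2.1, h⟩
          · exact Or.inr ⟨mem_univ _, hf.2.1, h⟩
        have h3 : ∀ c, 1 ≤ c → ((univ.filter (fun f : Diag n => Pat A f ∧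
            (Int A β f).card + (c + 1) = J' + 1)).card : ℝ) ≤ ww b J' * (NJ A β 0).card := by
          intro c hc
          rcases Nat.lt_or_ge J' c with h | h
          · have e : univ.filter (fun f : Diag n => Pat A f ∧
                (Int A β f).card + (c + 1) = J' + 1) = ∅ := by
              rw [filter_eq_empty_iff]
              intro f _ hf
              omega
            rw [e, card_empty]
            have := ww_pos b J'
            push_cast
            positivity
          · have e : univ.filter (fun f : Diag n => Pat A f ∧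
                (Int A β f).card + (c + 1) = J' + 1) = NJ A β (J' - c) := by
              unfold NJ
              ext f
              rw [mem_filter, mem_filter]
              constructor
              · rintro ⟨_, h5, h6⟩
                exact ⟨mem_univ _, h5, by omega⟩
              · rintro ⟨_, h5, h6⟩
                exact ⟨mem_univ _, h5, by omega⟩
            rw [e]
            refine (ih (J' - c) (by omega)).trans ?_
            exact mul_le_mul_of_nonneg_right (ww_mono b (by omega)) (by positivity)
        have h4 := h3 1 le_rfl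
        have h5 := h3 3 (by norm_num)
        have h2' : (M : ℝ) ≤ ((univ.filter (fun f : Diag n => Pat A f ∧
            (Int A β f).card + 2 = J' + 1)).card : ℝ) + ((univ.filter (fun f : Diag n =>
            Pat A f ∧ (Int A β f).card + 4 = J' + 1)).card : ℝ) := by
          exact_mod_cast h2
        linarith
      -- combine
      have hUr : (0 : ℝ) < (UU A).card := by
        have : 0 < (UU A).card := by omega
        exact_mod_cast this
      have h2 : (((UU A).card - 2 * b : ℕ) : ℝ) ≥ (UU A).card / 2 := by
        rw [Nat.cast_sub (by omega)]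
        push_cast
        have : (4 * b : ℝ) ≤ (UU A).card := by exact_mod_cast hU
        linarith
      have h3 : ((NJ A β (J' + 1)).card : ℝ) * (((J' : ℝ) + 1) *
          (((UU A).card - 2 * b : ℕ) : ℝ)) ≤ M * ((UU A).card * b) := by
        exact_mod_cast h1
      have h4 : ((NJ A β (J' + 1)).card : ℝ) * (((J' : ℝ) + 1) * ((UU A).card / 2)) ≤
          (2 * (ww b J' * (NJ A β 0).card)) * ((UU A).card * b) := by
        refine le_trans ?_ (h3.trans ?_)
        · apply mul_le_mul_of_nonneg_left _ (by positivity)
          exact mul_le_mul_of_nonneg_left h2 (by positivity)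
        · exact mul_le_mul_of_nonneg_right hM2 (by positivity)
      have h5 : ((NJ A β (J' + 1)).card : ℝ) ≤
          ww b J' * (4 * b / ((J' : ℝ) + 1)) * (NJ A β 0).card := by
        have h6 : ((NJ A β (J' + 1)).card : ℝ) * ((J' : ℝ) + 1) ≤
            4 * b * (ww b J' * (NJ A β 0).card) := by
          have h7 : (((NJ A β (J' + 1)).card : ℝ) * ((J' : ℝ) + 1)) * ((UU A).card / 2) ≤
              (4 * b * (ww b J' * (NJ A β 0).card)) * ((UU A).card / 2) := by linarith
          exact le_of_mul_le_mul_right h7 (by positivity)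
        have h8 : ww b J' * (4 * b / ((J' : ℝ) + 1)) * (NJ A β 0).card =
            4 * b * (ww b J' * (NJ A β 0).card) / ((J' : ℝ) + 1) := by ring
        rw [h8, le_div_iff₀ (by positivity)]
        exact h6
      refine h5.trans ?_
      show _ ≤ (ww b J' * max 1 (4 * b / ((J' : ℝ) + 1))) * (NJ A β 0).card
      apply mul_le_mul_of_nonneg_right _ (by positivity)
      exact mul_le_mul_of_nonneg_left (le_max_right _ _) (ww_pos b J').le

theorem pat_total (A : Finset (Fin (2 * n))) (β : Fin (2 * n) → ℕ) (b : ℕ) (hb1 : 1 ≤ b)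
    (hb : ∀ w, ((UU A).filter (fun x => β x = w)).card ≤ b) (hU : 4 * b ≤ (UU A).card) :
    cnt (Pat A) ≤ (2 * n + 1) * Real.exp (4 * b) * (NJ A β 0).card := by
  classical
  have h1 : cnt (Pat A) = ∑ J ∈ range (2 * n + 1), ((NJ A β J).card : ℝ) := by
    unfold cnt
    rw [cntN_eq, card_eq_sum_card_fiberwise (f := fun f : Diag n => (Int A β f).card)
      (t := range (2 * n + 1))]
    · push_cast
      apply sum_congr rfl
      intro J _
      unfold NJ
      rw [filter_filter]
    · intro f _
      rw [mem_coe, mem_range]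
      have := card_le_univ (Int A β f)
      rw [Fintype.card_fin] at this
      simp only
      omega
  rw [h1]
  have h2 : ∀ J ∈ range (2 * n + 1), ((NJ A β J).card : ℝ) ≤
      Real.exp (4 * b) * (NJ A β 0).card := by
    intro J _
    refine (NJ_le A β b hb1 hb hU J).trans ?_
    exact mul_le_mul_of_nonneg_right (ww_le b J) (by positivity)
  refine (sum_le_sum h2).trans (le_of_eq ?_)
  rw [sum_const, card_range, nsmul_eq_mul]
  push_cast
  ring

end Pool.Agent.LibCryst
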