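import Pool.Agent.LibCryst.Moments

set_option autoImplicit false

open Finset Filter

namespace Pool.Agent.LibCryst

variable {n : ℕ}

/-- all vertices of `A` are left endpoints of short chords -/
def Pat (A : Finset (Fin (2 * n))) (f : Diag n) : Prop := ∀ a ∈ A, (f.1 a).val = a.val + 1

/-- the vertices of `A` and their right neighbours -/
def VS (A : Finset (Fin (2 * n))) : Finset (Fin (2 * n)) :=
  A ∪ univ.filter (fun y => ∃ a ∈ A, y.val = a.val + 1)

lemma mem_VS (A : Finset (Fin (2 * n))) (x : Fin (2 * n)) :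
    x ∈ VS A ↔ x ∈ A ∨ ∃ a ∈ A, x.val = a.val + 1 := by
  unfold VS
  rw [mem_union, mem_filter]
  simp

lemma VS_card (A : Finset (Fin (2 * n))) : (VS A).card ≤ 2 * A.card := by
  have h1 : (univ.filter (fun y : Fin (2 * n) => ∃ a ∈ A, y.val = a.val + 1)).card ≤ A.card := by
    apply card_le_card_of_injOn (fun y => if h : y.val - 1 < 2 * n then ⟨y.val - 1, h⟩ else y)
    · intro y hy
      rw [coe_filter, Set.mem_ofPred_eq] at hy
      obtain ⟨_, a, ha, hya⟩ := hy
      have h1 : y.val - 1 < 2 * n := by have := y.2; omega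
      simp only [h1, dif_pos]
      have : (⟨y.val - 1, h1⟩ : Fin (2 * n)) = a := by
        apply Fin.ext
        simp only
        omega
      rw [mem_coe, this]
      exact ha
    · intro y hy y' hy' h
      rw [coe_filter, Set.mem_ofPred_eq] at hy hy'
      obtain ⟨_, a, ha, hya⟩ := hy
      obtain ⟨_, a', ha', hya'⟩ := hy'
      have h1 : y.val - 1 < 2 * n := by have := y.2; omega
      have h1' : y'.val - 1 < 2 * n := by have := y'.2; omega
      simp only [h1, h1', dif_pos, Fin.mk.injEq] at h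
      apply Fin.ext
      omega
  unfold VS
  have := card_union_le A (univ.filter (fun y : Fin (2 * n) => ∃ a ∈ A, y.val = a.val + 1))
  omega

lemma pat_VS (A : Finset (Fin (2 * n))) (f : Diag n) (hf : Pat A f) (x : Fin (2 * n))
    (hx : x ∈ VS A) : f.1 x ∈ VS A := by
  rw [mem_VS] at hx ⊢
  rcases hx with hx | ⟨a, ha, hxa⟩
  · exact Or.inr ⟨x, hx, hf x hx⟩
  · left
    have h1 : f.1 a = x := Fin.ext (by rw [hf a ha, hxa])
    rw [← h1, dinv]
    exact ha

lemma pat_inv (A : Finset (Fin (2 * n))) (f : Diag n) (d d' : Fin (2 * n)) (hd : d ∉ VS A)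
    (hd' : d' ∉ VS A) (hf : Pat A f) : Pat A (swapD f d d') := by
  intro a ha
  have haV : a ∈ VS A := (mem_VS A a).2 (Or.inl ha)
  have hfa := pat_VS A f hf a haV
  rw [swapD_of_ne]
  · exact hf a ha
  · rintro rfl; exact hd haV
  · rintro rfl; exact hd' haV
  · intro h; rw [h] at hfa; exact hd hfa
  · intro h; rw [h] at hfa; exact hd' hfa

lemma pat_eq (A : Finset (Fin (2 * n))) (c d : Fin (2 * n)) (hcd : d.val = c.val + 1)
    (hc : c ∉ VS A) (hd : d ∉ VS A) :
    (2 * n - (VS A).card - 1 : ℝ) * cnt (Pat (insert c A)) = cnt (Pat A) := by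
  have hne : c ≠ d := by
    intro e
    rw [e] at hcd
    omega
  rw [← cnt_step (Pat A) (VS A) (fun f e e' he he' hf => pat_inv A f e e' he he' hf)
    (fun f hf x hx => pat_VS A f hf x hx) c d hc hd hne]
  congr 1
  unfold cnt
  congr 2
  funext f
  apply propext
  unfold Pat
  constructor
  · intro h
    refine ⟨fun a ha => h a (mem_insert_of_mem ha), Fin.ext ?_⟩
    rw [h c (mem_insert_self _ _), hcd]
  · rintro ⟨h1, h2⟩ a ha
    rw [mem_insert] at ha
    rcases ha with rfl | ha
    · rw [h2, hcd]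
    · exact h1 a ha

lemma pat_le (A : Finset (Fin (2 * n))) (c : Fin (2 * n)) (hc : c ∉ A)
    (hA : 2 * A.card + 1 ≤ n) : (n : ℝ) * cnt (Pat (insert c A)) ≤ cnt (Pat A) := by
  by_cases h : ∃ f : Diag n, Pat (insert c A) f
  · obtain ⟨f, hf⟩ := h
    have hfc := hf c (mem_insert_self _ _)
    have hfA : Pat A f := fun a ha => hf a (mem_insert_of_mem ha)
    have hc1 : c ∉ VS A := by
      rw [mem_VS]
      rintro (h | ⟨a, ha, hca⟩)
      · exact hc h
      · have h1 : f.1 a = c := Fin.ext (by rw [hfA a ha, hca])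
        rw [← h1, dinv] at hfc
        rw [h1] at hfc
        omega
    have hd1 : f.1 c ∉ VS A := by
      rw [mem_VS]
      rintro (h | ⟨a, ha, hca⟩)
      · have := hfA _ h
        rw [dinv] at this
        omega
      · have : c = a := Fin.ext (by omega)
        rw [this] at hc
        exact hc ha
    rw [← pat_eq A c (f.1 c) hfc hc1 hd1]
    apply mul_le_mul_of_nonneg_right _ (cnt_nonneg _)
    have h1 := VS_card A
    have h2 : ((VS A).card : ℝ) + 1 ≤ n := by
      have : (VS A).card + 1 ≤ n := by omega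
      exact_mod_cast this
    linarith
  · push Not at h
    rw [cnt_zero h, mul_zero]
    exact cnt_nonneg _

lemma pat_pow (A : Finset (Fin (2 * n))) (hA : 2 * A.card ≤ n) :
    (n : ℝ) ^ A.card * cnt (Pat A) ≤ Fintype.card (Diag n) := by
  classical
  induction A using Finset.induction_on with
  | empty =>
    rw [card_empty, pow_zero, one_mul, ← cnt_true]
    exact cnt_mono fun _ _ => trivial
  | insert c A hc ih =>
    rw [card_insert_of_notMem hc] at hA ⊢
    have h1 := ih (by omega)
    have h2 := pat_le A c hc (by omega)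
    calc (n : ℝ) ^ (A.card + 1) * cnt (Pat (insert c A))
        = (n : ℝ) ^ A.card * ((n : ℝ) * cnt (Pat (insert c A))) := by ring
      _ ≤ (n : ℝ) ^ A.card * cnt (Pat A) := mul_le_mul_of_nonneg_left h2 (by positivity)
      _ ≤ _ := h1

/-- many short chords are unlikely -/
theorem many_short (K : ℕ) (hn : 1 ≤ n) (hK : 2 * K ≤ n) :
    cnt (fun f : Diag n => K ≤ numShort f) ≤
      2 ^ K / (Nat.factorial K : ℝ) * Fintype.card (Diag n) := by
  classical
  have hnr : (0 : ℝ) < n := by exact_mod_cast hn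
  have h1 : cnt (fun f : Diag n => K ≤ numShort f) ≤
      ∑ A ∈ powersetCard K (univ : Finset (Fin (2 * n))), cnt (Pat A) := by
    have e1 : cnt (fun f : Diag n => K ≤ numShort f) =
        ∑ f : Diag n, (if K ≤ numShort f then (1 : ℝ) else 0) := by
      unfold cnt
      rw [cntN_eq, sum_boole]
    have e2 : ∀ A : Finset (Fin (2 * n)), cnt (Pat A) =
        ∑ f : Diag n, (if Pat A f then (1 : ℝ) else 0) := by
      intro A
      unfold cnt
      rw [cntN_eq, sum_boole]
    simp only [e1, e2]
    rw [sum_comm]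
    apply sum_le_sum
    intro f _
    split_ifs with h
    · obtain ⟨A, hA1, hA2⟩ := exists_subset_card_eq h
      have h3 : A ∈ powersetCard K (univ : Finset (Fin (2 * n))) :=
        mem_powersetCard.2 ⟨subset_univ _, hA2⟩
      have h4 : Pat A f := fun a ha => (mem_filter.1 (hA1 ha)).2
      calc (1 : ℝ) = if Pat A f then (1 : ℝ) else 0 := by rw [if_pos h4]
        _ ≤ _ := single_le_sum (f := fun A => if Pat A f then (1 : ℝ) else 0)
          (fun _ _ => by positivity) h3
    · exact sum_nonneg fun _ _ => by positivity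
  refine h1.trans ?_
  have h2 : ∀ A ∈ powersetCard K (univ : Finset (Fin (2 * n))), cnt (Pat A) ≤
      (Fintype.card (Diag n) : ℝ) / (n : ℝ) ^ K := by
    intro A hA
    rw [mem_powersetCard] at hA
    have := pat_pow A (by omega)
    rw [hA.2] at this
    rw [le_div_iff₀ (by positivity)]
    linarith
  refine (sum_le_sum h2).trans ?_
  rw [sum_const, card_powersetCard, card_univ, Fintype.card_fin, nsmul_eq_mul]
  have h3 : ((Nat.choose (2 * n) K : ℕ) : ℝ) ≤ ((2 * n : ℕ) : ℝ) ^ K / (Nat.factorial K : ℝ) :=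
    Nat.choose_le_pow_div K (2 * n)
  have h4 : (0 : ℝ) ≤ (Fintype.card (Diag n) : ℝ) / (n : ℝ) ^ K := by positivity
  refine (mul_le_mul_of_nonneg_right h3 h4).trans (le_of_eq ?_)
  push_cast
  rw [mul_pow]
  have h5 : (n : ℝ) ^ K ≠ 0 := by positivity
  field_simp

lemma pat_ge (A : Finset (Fin (2 * n)))
    (hA : ∀ a ∈ A, a.val + 1 < 2 * n ∧ ∀ b ∈ A, a.val ≠ b.val + 1) :
    (Fintype.card (Diag n) : ℝ) ≤ (2 * n : ℝ) ^ A.card * cnt (Pat A) := by
  classical
  induction A using Finset.induction_on with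
  | empty =>
    rw [card_empty, pow_zero, one_mul, ← cnt_true]
    exact cnt_mono fun _ _ a ha => absurd ha (notMem_empty a)
  | insert c A hc ih =>
    have hA' := fun a ha => hA a (mem_insert_of_mem ha)
    have h1 := ih (fun a ha => ⟨(hA' a ha).1, fun b hb => (hA' a ha).2 b (mem_insert_of_mem hb)⟩)
    obtain ⟨h2, h3⟩ := hA c (mem_insert_self _ _)
    rw [card_insert_of_notMem hc]
    have hc1 : c ∉ VS A := by
      rw [mem_VS]
      rintro (h | ⟨a, ha, hca⟩)
      · exact hc h
      · exact h3 a (mem_insert_of_mem ha) hca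
    have hd1 : (⟨c.val + 1, h2⟩ : Fin (2 * n)) ∉ VS A := by
      rw [mem_VS]
      rintro (h | ⟨a, ha, hca⟩)
      · exact (hA' _ h).2 c (mem_insert_self _ _) rfl
      · have : c = a := Fin.ext (by simp only at hca; omega)
        rw [this] at hc
        exact hc ha
    have h4 := pat_eq A c ⟨c.val + 1, h2⟩ rfl hc1 hd1
    have h5 : cnt (Pat A) ≤ (2 * n : ℝ) * cnt (Pat (insert c A)) := by
      rw [← h4]
      apply mul_le_mul_of_nonneg_right _ (cnt_nonneg _)
      have : (0 : ℝ) ≤ (VS A).card := by positivity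
      linarith
    calc (Fintype.card (Diag n) : ℝ) ≤ (2 * n : ℝ) ^ A.card * cnt (Pat A) := h1
      _ ≤ (2 * n : ℝ) ^ A.card * ((2 * n : ℝ) * cnt (Pat (insert c A))) :=
          mul_le_mul_of_nonneg_left h5 (by positivity)
      _ = _ := by ring

end Pool.Agent.LibCryst
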