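import Pool.Agent.LibCryst.Slow

set_option autoImplicit false

open Finset Filter

namespace Pool.Agent.LibCryst

variable {n : ℕ}

/-- motion of a position in the free stirring process -/
def tr (c : Ch n) (x : Fin (2 * n)) : Fin (2 * n) := Equiv.swap c.1 (nb c) x

/-- both positions stay close to their starting points -/
def Reg (x0 y0 B : ℕ) (x y : Fin (2 * n)) : Prop :=
  x.val < x0 + B ∧ x0 < x.val + B ∧ y.val < y0 + B ∧ y0 < y.val + B

instance (x0 y0 B : ℕ) (x y : Fin (2 * n)) : Decidable (Reg x0 y0 B x y) := by
  unfold Reg; infer_instance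

/-- the two positions become adjacent while staying in the region -/
def Suc (x0 y0 B : ℕ) : List (Ch n) → Fin (2 * n) → Fin (2 * n) → Prop
  | [], x, y => Reg x0 y0 B x y ∧ y.val = x.val + 1
  | c :: l, x, y => Reg x0 y0 B x y ∧
      (y.val = x.val + 1 ∨ Suc x0 y0 B l (tr c x) (tr c y))

lemma sl_cryst (f : Diag n) (hf : Crystallized f) (c : Ch n) : sl f c = f := by
  unfold sl
  rw [if_pos (Or.inl hf)]

theorem suc_wall (x0 y0 B : ℕ) (h0 : x0 ≤ y0) : ∀ (l : List (Ch n)) (f : Diag n)
    (x y : Fin (2 * n)), f.1 x = y → Suc x0 y0 B l x y →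
    ∃ z, ShortV (run f l) z ∧ x0 ≤ z.val + B ∧ z.val ≤ y0 + B := by
  intro l
  induction l with
  | nil =>
    intro f x y hxy hs
    obtain ⟨⟨h1, h2, h3, h4⟩, h5⟩ := hs
    refine ⟨x, ?_, by omega, by omega⟩
    left
    rw [run_nil, hxy, h5]
  | cons c l ih =>
    intro f x y hxy hs
    obtain ⟨⟨h1, h2, h3, h4⟩, h5⟩ := hs
    rcases h5 with h5 | h5
    · refine ⟨x, ?_, by omega, by omega⟩
      apply run_short
      left
      rw [hxy, h5]
    · by_cases hc : Crystallized f
      · obtain ⟨z, hz, hz1, hz2⟩ := (cryst_iff f).1 hc x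
        rw [hxy] at hz1 hz2
        refine ⟨z, run_short _ _ hz, ?_, ?_⟩
        · rcases min_choice x y with h | h <;> rw [h, Fin.le_def] at hz1 <;> omega
        · rcases max_choice x y with h | h <;> rw [h, Fin.le_def] at hz2 <;> omega
      · by_cases ha : x = c.1 ∨ x = nb c ∨ y = c.1 ∨ y = nb c
        · have hadj := nb_adj c
          have hxc : ∀ w, x = w → x.val = w.val := fun w h => by rw [h]
          have hyc : ∀ w, y = w → y.val = w.val := fun w h => by rw [h]
          by_cases hi : ShortV f c.1
          · refine ⟨c.1, run_short _ _ hi, ?_, ?_⟩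
            · rcases ha with h | h | h | h
              · have := hxc _ h; omega
              · have := hxc _ h; omega
              · have := hyc _ h; omega
              · have := hyc _ h; omega
            · rcases ha with h | h | h | h
              · have := hxc _ h; omega
              · have := hxc _ h; omega
              · have := hyc _ h; omega
              · have := hyc _ h; omega
          · by_cases hj : ShortV f (nb c)
            · refine ⟨nb c, run_short _ _ hj, ?_, ?_⟩
              · rcases ha with h | h | h | h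
                · have := hxc _ h; omega
                · have := hxc _ h; omega
                · have := hyc _ h; omega
                · have := hyc _ h; omega
              · rcases ha with h | h | h | h
                · have := hxc _ h; omega
                · have := hxc _ h; omega
                · have := hyc _ h; omega
                · have := hyc _ h; omega
            · have e : sl f c = swapD f c.1 (nb c) := by
                unfold sl move
                rw [if_neg (by simp [hc, hi]), if_neg hj]
              rw [run_cons]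
              apply ih (sl f c) (tr c x) (tr c y) _ h5
              rw [e, swapD_apply]
              unfold tr
              rw [Equiv.swap_apply_self, hxy]
        · push Not at ha
          obtain ⟨a1, a2, a3, a4⟩ := ha
          have ex : tr c x = x := Equiv.swap_apply_of_ne_of_ne a1 a2
          have ey : tr c y = y := Equiv.swap_apply_of_ne_of_ne a3 a4
          rw [ex, ey] at h5
          rw [run_cons]
          apply ih (sl f c) x y _ h5
          unfold sl move
          split_ifs
          · exact hxy
          · exact hxy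
          · rw [swapD_of_ne f _ _ _ a1 a2 (by rw [hxy]; exact a3) (by rw [hxy]; exact a4), hxy]

lemma nb_true (i : Fin (2 * n)) (h : i.val + 1 < 2 * n) : (nb (i, true)).val = i.val + 1 := by
  unfold nb; simp [h]

lemma nb_false (i : Fin (2 * n)) (h : 1 ≤ i.val) : (nb (i, false)).val = i.val - 1 := by
  unfold nb; simp [h]

lemma nb_true' (i : Fin (2 * n)) (h : ¬ i.val + 1 < 2 * n) :
    (nb (i, true)).val = i.val - 1 := by
  unfold nb; simp [h]

lemma nb_false' (i : Fin (2 * n)) (h : ¬ 1 ≤ i.val) : (nb (i, false)).val = i.val + 1 := by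
  unfold nb; simp [h]

lemma tr_val (c : Ch n) (z : Fin (2 * n)) : (tr c z).val =
    if z.val = c.1.val then (nb c).val else if z.val = (nb c).val then c.1.val else z.val := by
  unfold tr
  rw [Equiv.swap_apply_def]
  simp only [Fin.ext_iff]
  split_ifs <;> rfl

lemma sum_true (x y : Fin (2 * n)) (hx : 2 ≤ x.val) (hD : x.val + 2 ≤ y.val)
    (hy : y.val + 3 ≤ 2 * n) (G : ℕ → ℕ → ℝ) :
    ∑ i : Fin (2 * n), (G (tr (i, true) x).val (tr (i, true) y).val - G x.val y.val) =
      (G (x.val + 1) y.val - G x.val y.val) + (G (x.val - 1) y.val - G x.val y.val) +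
      (G x.val (y.val + 1) - G x.val y.val) + (G x.val (y.val - 1) - G x.val y.val) := by
  set xm : Fin (2 * n) := ⟨x.val - 1, by omega⟩ with hxm
  set ym : Fin (2 * n) := ⟨y.val - 1, by omega⟩ with hym
  have hsub : ∑ i : Fin (2 * n), (G (tr (i, true) x).val (tr (i, true) y).val - G x.val y.val) =
      ∑ i ∈ ({x, xm, y, ym} : Finset (Fin (2 * n))),
        (G (tr (i, true) x).val (tr (i, true) y).val - G x.val y.val) := by
    symm
    apply sum_subset (subset_univ _)
    intro i _ hi
    simp only [mem_insert, mem_singleton, not_or, Fin.ext_iff, hxm, hym] at hi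
    obtain ⟨h1, h2, h3, h4⟩ := hi
    have e1 : (tr (i, true) x).val = x.val := by
      rw [tr_val]
      by_cases h : i.val + 1 < 2 * n
      · rw [nb_true i h]
        simp only
        rw [if_neg (by omega), if_neg (by omega)]
      · rw [nb_true' i h]
        simp only
        rw [if_neg (by omega), if_neg (by omega)]
    have e2 : (tr (i, true) y).val = y.val := by
      rw [tr_val]
      by_cases h : i.val + 1 < 2 * n
      · rw [nb_true i h]
        simp only
        rw [if_neg (by omega), if_neg (by omega)]
      · rw [nb_true' i h]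
        simp only
        rw [if_neg (by omega), if_neg (by omega)]
    rw [e1, e2, sub_self]
  rw [hsub]
  rw [sum_insert (by simp only [mem_insert, mem_singleton, not_or, Fin.ext_iff, hxm, hym]; omega),
    sum_insert (by simp only [mem_insert, mem_singleton, not_or, Fin.ext_iff, hxm, hym]; omega),
    sum_insert (by simp only [mem_singleton, Fin.ext_iff, hym]; omega), sum_singleton]
  have a1 : (tr (x, true) x).val = x.val + 1 := by
    rw [tr_val, nb_true x (by omega)]; simp
  have a2 : (tr (x, true) y).val = y.val := by
    rw [tr_val, nb_true x (by omega)]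
    simp only
    rw [if_neg (by omega), if_neg (by omega)]
  have a3 : (tr (xm, true) x).val = x.val - 1 := by
    rw [tr_val, nb_true xm (by simp only [hxm]; omega)]
    simp only [hxm]
    rw [if_neg (by omega), if_pos (by omega)]
  have a4 : (tr (xm, true) y).val = y.val := by
    rw [tr_val, nb_true xm (by simp only [hxm]; omega)]
    simp only [hxm]
    rw [if_neg (by omega), if_neg (by omega)]
  have a5 : (tr (y, true) x).val = x.val := by
    rw [tr_val, nb_true y (by omega)]
    simp only
    rw [if_neg (by omega), if_neg (by omega)]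
  have a6 : (tr (y, true) y).val = y.val + 1 := by
    rw [tr_val, nb_true y (by omega)]; simp
  have a7 : (tr (ym, true) x).val = x.val := by
    rw [tr_val, nb_true ym (by simp only [hym]; omega)]
    simp only [hym]
    rw [if_neg (by omega), if_neg (by omega)]
  have a8 : (tr (ym, true) y).val = y.val - 1 := by
    rw [tr_val, nb_true ym (by simp only [hym]; omega)]
    simp only [hym]
    rw [if_neg (by omega), if_pos (by omega)]
  rw [a1, a2, a3, a4, a5, a6, a7, a8]
  ring

lemma sum_false (x y : Fin (2 * n)) (hx : 2 ≤ x.val) (hD : x.val + 2 ≤ y.val)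
    (hy : y.val + 3 ≤ 2 * n) (G : ℕ → ℕ → ℝ) :
    ∑ i : Fin (2 * n), (G (tr (i, false) x).val (tr (i, false) y).val - G x.val y.val) =
      (G (x.val + 1) y.val - G x.val y.val) + (G (x.val - 1) y.val - G x.val y.val) +
      (G x.val (y.val + 1) - G x.val y.val) + (G x.val (y.val - 1) - G x.val y.val) := by
  set xp : Fin (2 * n) := ⟨x.val + 1, by omega⟩ with hxp
  set yp : Fin (2 * n) := ⟨y.val + 1, by omega⟩ with hyp
  have hsub : ∑ i : Fin (2 * n), (G (tr (i, false) x).val (tr (i, false) y).val - G x.val y.val) =
      ∑ i ∈ ({x, xp, y, yp} : Finset (Fin (2 * n))),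
        (G (tr (i, false) x).val (tr (i, false) y).val - G x.val y.val) := by
    symm
    apply sum_subset (subset_univ _)
    intro i _ hi
    simp only [mem_insert, mem_singleton, not_or, Fin.ext_iff, hxp, hyp] at hi
    obtain ⟨h1, h2, h3, h4⟩ := hi
    have e1 : (tr (i, false) x).val = x.val := by
      rw [tr_val]
      by_cases h : 1 ≤ i.val
      · rw [nb_false i h]
        simp only
        rw [if_neg (by omega), if_neg (by omega)]
      · rw [nb_false' i h]
        simp only
        rw [if_neg (by omega), if_neg (by omega)]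
    have e2 : (tr (i, false) y).val = y.val := by
      rw [tr_val]
      by_cases h : 1 ≤ i.val
      · rw [nb_false i h]
        simp only
        rw [if_neg (by omega), if_neg (by omega)]
      · rw [nb_false' i h]
        simp only
        rw [if_neg (by omega), if_neg (by omega)]
    rw [e1, e2, sub_self]
  rw [hsub]
  rw [sum_insert (by simp only [mem_insert, mem_singleton, not_or, Fin.ext_iff, hxp, hyp]; omega),
    sum_insert (by simp only [mem_insert, mem_singleton, not_or, Fin.ext_iff, hxp, hyp]; omega),
    sum_insert (by simp only [mem_singleton, Fin.ext_iff, hyp]; omega), sum_singleton]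
  have a1 : (tr (x, false) x).val = x.val - 1 := by
    rw [tr_val, nb_false x (by omega)]; simp
  have a2 : (tr (x, false) y).val = y.val := by
    rw [tr_val, nb_false x (by omega)]
    simp only
    rw [if_neg (by omega), if_neg (by omega)]
  have a3 : (tr (xp, false) x).val = x.val + 1 := by
    rw [tr_val, nb_false xp (by simp only [hxp]; omega)]
    simp only [hxp]
    rw [if_neg (by omega), if_pos (by omega)]
  have a4 : (tr (xp, false) y).val = y.val := by
    rw [tr_val, nb_false xp (by simp only [hxp]; omega)]
    simp only [hxp]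
    rw [if_neg (by omega), if_neg (by omega)]
  have a5 : (tr (y, false) x).val = x.val := by
    rw [tr_val, nb_false y (by omega)]
    simp only
    rw [if_neg (by omega), if_neg (by omega)]
  have a6 : (tr (y, false) y).val = y.val - 1 := by
    rw [tr_val, nb_false y (by omega)]; simp
  have a7 : (tr (yp, false) x).val = x.val := by
    rw [tr_val, nb_false yp (by simp only [hyp]; omega)]
    simp only [hyp]
    rw [if_neg (by omega), if_neg (by omega)]
  have a8 : (tr (yp, false) y).val = y.val + 1 := by
    rw [tr_val, nb_false yp (by simp only [hyp]; omega)]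
    simp only [hyp]
    rw [if_neg (by omega), if_pos (by omega)]
  rw [a1, a2, a3, a4, a5, a6, a7, a8]
  ring

lemma sum_tr (x y : Fin (2 * n)) (hx : 2 ≤ x.val) (hD : x.val + 2 ≤ y.val)
    (hy : y.val + 3 ≤ 2 * n) (G : ℕ → ℕ → ℝ) :
    ∑ c : Ch n, G (tr c x).val (tr c y).val = (4 * n : ℝ) * G x.val y.val +
      2 * ((G (x.val + 1) y.val - G x.val y.val) + (G (x.val - 1) y.val - G x.val y.val) +
      (G x.val (y.val + 1) - G x.val y.val) + (G x.val (y.val - 1) - G x.val y.val)) := by
  have hcard : ((univ : Finset (Ch n)).card : ℝ) = 4 * n := by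
    rw [card_univ, Fintype.card_prod, Fintype.card_fin, Fintype.card_bool]
    push_cast
    ring
  have h1 : ∑ c : Ch n, G (tr c x).val (tr c y).val = (4 * n : ℝ) * G x.val y.val +
      ∑ c : Ch n, (G (tr c x).val (tr c y).val - G x.val y.val) := by
    rw [sum_sub_distrib, sum_const, nsmul_eq_mul, hcard]
    ring
  rw [h1, Fintype.sum_prod_type_right, Fintype.sum_bool, sum_true x y hx hD hy,
    sum_false x y hx hD hy]
  ring

/-- the potential -/
noncomputable def Fp (n x0 y0 B K τ r x y : ℕ) : ℝ :=
  1 - ((y : ℝ) - x - 1) / ((K : ℝ) - 1) -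
    (((x : ℝ) - x0) ^ 2 + ((y : ℝ) - y0) ^ 2 + 2 / n * r) / (B : ℝ) ^ 2 -
    ((τ : ℝ) - r + ((y : ℝ) - x - 1) * ((K : ℝ) - ((y : ℝ) - x)) * (n / 2)) / τ

open Classical in
theorem suc_prob (x0 y0 B K τ : ℕ) (hn : 1 ≤ n) (hB : 1 ≤ B) (hK : 2 ≤ K) (hτ : 1 ≤ τ)
    (hx0 : B + 1 ≤ x0) (hy0 : y0 + B + 2 ≤ 2 * n) : ∀ (r : ℕ), r ≤ τ → ∀ (x y : Fin (2 * n)),
    x.val < y.val → y.val ≤ x.val + K →
    Fp n x0 y0 B K τ r x.val y.val ≤
      Avg n r (fun l => if Suc x0 y0 B l x y then 1 else 0) := by
  have hBr : (0 : ℝ) < B := by exact_mod_cast hB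
  have hKr : (0 : ℝ) < (K : ℝ) - 1 := by
    have : (2 : ℝ) ≤ K := by exact_mod_cast hK
    linarith
  have hτr : (0 : ℝ) < τ := by exact_mod_cast hτ
  have hnr : (0 : ℝ) < n := by exact_mod_cast hn
  have hnn : ∀ (r : ℕ) (x y : Fin (2 * n)),
      0 ≤ Avg n r (fun l => if Suc x0 y0 B l x y then (1 : ℝ) else 0) := by
    intro r x y
    have h := Avg_mono r (fun _ => (0 : ℝ))
      (fun l => if Suc x0 y0 B l x y then (1 : ℝ) else 0) (fun l => by
        split_ifs <;> norm_num)
    rwa [Avg_const hn] at h
  -- general upper bound ingredients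
  have hgen : ∀ (r : ℕ), r ≤ τ → ∀ (x y : Fin (2 * n)), x.val < y.val → y.val ≤ x.val + K →
      0 ≤ ((y.val : ℝ) - x.val - 1) / ((K : ℝ) - 1) ∧
      0 ≤ (((x.val : ℝ) - x0) ^ 2 + ((y.val : ℝ) - y0) ^ 2 + 2 / n * r) / (B : ℝ) ^ 2 ∧
      0 ≤ ((y.val : ℝ) - x.val - 1) * ((K : ℝ) - ((y.val : ℝ) - x.val)) * (n / 2) ∧
      0 ≤ (τ : ℝ) - r := by
    intro r hr x y hxy hyK
    have h1 : (0 : ℝ) ≤ (y.val : ℝ) - x.val - 1 := by
      have : (x.val : ℝ) + 1 ≤ y.val := by exact_mod_cast hxy
      linarith
    have h2 : (0 : ℝ) ≤ (K : ℝ) - ((y.val : ℝ) - x.val) := by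
      have : (y.val : ℝ) ≤ x.val + K := by exact_mod_cast hyK
      linarith
    refine ⟨by positivity, by positivity, by positivity, ?_⟩
    have : (r : ℝ) ≤ τ := by exact_mod_cast hr
    linarith
  intro r
  induction r with
  | zero =>
    intro hr x y hxy hyK
    obtain ⟨g1, g2, g3, g4⟩ := hgen 0 hr x y hxy hyK
    by_cases hreg : Reg x0 y0 B x y
    · by_cases hadj : y.val = x.val + 1
      · have hs : Suc x0 y0 B [] x y := ⟨hreg, hadj⟩
        have e : Avg n 0 (fun l => if Suc x0 y0 B l x y then (1 : ℝ) else 0) = 1 := by
          show (if Suc x0 y0 B [] x y then (1 : ℝ) else 0) = 1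
          rw [if_pos hs]
        rw [e]
        unfold Fp
        have : 0 ≤ ((τ : ℝ) - (0 : ℕ) +
          ((y.val : ℝ) - x.val - 1) * ((K : ℝ) - ((y.val : ℝ) - x.val)) * (n / 2)) / τ :=
          div_nonneg (by linarith) hτr.le
        linarith
      · refine le_trans ?_ (hnn 0 x y)
        unfold Fp
        have : 1 ≤ ((τ : ℝ) - (0 : ℕ) +
          ((y.val : ℝ) - x.val - 1) * ((K : ℝ) - ((y.val : ℝ) - x.val)) * (n / 2)) / τ := by
          rw [le_div_iff₀ hτr]
          push_cast
          linarith
        linarith
    · refine le_trans ?_ (hnn 0 x y)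
      have h1 : 1 ≤ (((x.val : ℝ) - x0) ^ 2 + ((y.val : ℝ) - y0) ^ 2 + 2 / n * (0 : ℕ)) /
          (B : ℝ) ^ 2 := by
        rw [le_div_iff₀ (by positivity), one_mul]
        unfold Reg at hreg
        have hc : x0 + B ≤ x.val ∨ x.val + B ≤ x0 ∨ y0 + B ≤ y.val ∨ y.val + B ≤ y0 := by omega
        have q1 := sq_nonneg ((x.val : ℝ) - x0)
        have q2 := sq_nonneg ((y.val : ℝ) - y0)
        rcases hc with h | h | h | h
        · have h' : (x0 : ℝ) + B ≤ x.val := by exact_mod_cast h
          push_cast
          nlinarith
        · have h' : (x.val : ℝ) + B ≤ x0 := by exact_mod_cast h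
          push_cast
          nlinarith
        · have h' : (y0 : ℝ) + B ≤ y.val := by exact_mod_cast h
          push_cast
          nlinarith
        · have h' : (y.val : ℝ) + B ≤ y0 := by exact_mod_cast h
          push_cast
          nlinarith
      unfold Fp
      have : 0 ≤ ((τ : ℝ) - (0 : ℕ) +
          ((y.val : ℝ) - x.val - 1) * ((K : ℝ) - ((y.val : ℝ) - x.val)) * (n / 2)) / τ :=
          div_nonneg (by linarith) hτr.le
      linarith
  | succ r ih =>
    intro hr x y hxy hyK
    obtain ⟨g1, g2, g3, g4⟩ := hgen (r + 1) hr x y hxy hyK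
    have g5 : 0 ≤ ((τ : ℝ) - (r + 1 : ℕ) +
          ((y.val : ℝ) - x.val - 1) * ((K : ℝ) - ((y.val : ℝ) - x.val)) * (n / 2)) / τ :=
          div_nonneg (by linarith) hτr.le
    by_cases hreg : Reg x0 y0 B x y
    · by_cases hadj : y.val = x.val + 1
      · have e : Avg n (r + 1) (fun l => if Suc x0 y0 B l x y then (1 : ℝ) else 0) = 1 := by
          rw [Avg_succ]
          have : ∀ (c : Ch n) (l : List (Ch n)),
              (if Suc x0 y0 B (c :: l) x y then (1 : ℝ) else 0) = 1 := by
            intro c l
            rw [if_pos]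
            exact ⟨hreg, Or.inl hadj⟩
          simp only [this, Avg_const hn]
          rw [sum_const, nsmul_eq_mul, mul_one, card_Ch hn]
        rw [e]
        unfold Fp
        linarith
      · by_cases hKe : y.val = x.val + K
        · refine le_trans ?_ (hnn (r + 1) x y)
          have h1 : ((y.val : ℝ) - x.val - 1) / ((K : ℝ) - 1) = 1 := by
            have : (y.val : ℝ) = x.val + K := by exact_mod_cast hKe
            rw [this, div_eq_one_iff_eq hKr.ne']
            ring
          unfold Fp
          rw [h1]
          linarith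
        · -- the main step
          have hr' : r ≤ τ := by omega
          unfold Reg at hreg
          have hstep : Avg n (r + 1) (fun l => if Suc x0 y0 B l x y then (1 : ℝ) else 0) =
              (1 / (4 * n : ℝ)) * ∑ c : Ch n,
                Avg n r (fun l => if Suc x0 y0 B l (tr c x) (tr c y) then (1 : ℝ) else 0) := by
            rw [Avg_succ]
            congr 1
            apply sum_congr rfl
            intro c _
            congr 1
            funext l
            have : Suc x0 y0 B (c :: l) x y ↔ Suc x0 y0 B l (tr c x) (tr c y) := by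
              constructor
              · rintro ⟨_, h | h⟩
                · exact absurd h hadj
                · exact h
              · intro h
                exact ⟨hreg, Or.inr h⟩
            by_cases hh : Suc x0 y0 B l (tr c x) (tr c y)
            · rw [if_pos (this.2 hh), if_pos hh]
            · rw [if_neg (fun h => hh (this.1 h)), if_neg hh]
          rw [hstep]
          have hlow : ∑ c : Ch n, Fp n x0 y0 B K τ r (tr c x).val (tr c y).val ≤ ∑ c : Ch n,
                Avg n r (fun l => if Suc x0 y0 B l (tr c x) (tr c y) then (1 : ℝ) else 0) := by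
            apply sum_le_sum
            intro c _
            have hadj' := nb_adj c
            apply ih hr'
            · rw [tr_val, tr_val]
              split_ifs <;> omega
            · rw [tr_val, tr_val]
              split_ifs <;> omega
          refine le_trans ?_ (mul_le_mul_of_nonneg_left hlow (by positivity))
          rw [sum_tr x y (by omega) (by omega) (by omega) (Fp n x0 y0 B K τ r)]
          apply le_of_eq
          have hx1 : ((x.val - 1 : ℕ) : ℝ) = (x.val : ℝ) - 1 := by
            rw [Nat.cast_sub (by omega)]; push_cast; ring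
          have hy1 : ((y.val - 1 : ℕ) : ℝ) = (y.val : ℝ) - 1 := by
            rw [Nat.cast_sub (by omega)]; push_cast; ring
          unfold Fp
          rw [hx1, hy1]
          push_cast
          field_simp
          ring
    · refine le_trans ?_ (hnn (r + 1) x y)
      have h1 : 1 ≤ (((x.val : ℝ) - x0) ^ 2 + ((y.val : ℝ) - y0) ^ 2 + 2 / n * (r + 1 : ℕ)) /
          (B : ℝ) ^ 2 := by
        rw [le_div_iff₀ (by positivity), one_mul]
        unfold Reg at hreg
        have hc : x0 + B ≤ x.val ∨ x.val + B ≤ x0 ∨ y0 + B ≤ y.val ∨ y.val + B ≤ y0 := by omega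
        have q1 := sq_nonneg ((x.val : ℝ) - x0)
        have q2 := sq_nonneg ((y.val : ℝ) - y0)
        have q3 : (0 : ℝ) ≤ 2 / n * (r + 1 : ℕ) := by positivity
        rcases hc with h | h | h | h
        · have h' : (x0 : ℝ) + B ≤ x.val := by exact_mod_cast h
          nlinarith
        · have h' : (x.val : ℝ) + B ≤ x0 := by exact_mod_cast h
          nlinarith
        · have h' : (y0 : ℝ) + B ≤ y.val := by exact_mod_cast h
          nlinarith
        · have h' : (y.val : ℝ) + B ≤ y0 := by exact_mod_cast h
          nlinarith
      unfold Fp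
      linarith

end Pool.Agent.LibCryst
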